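import Pool.Agent.P.MP_d66c6d_pr.H.Iface
import Pool.Agent.P.MP_d66c6d_pr.A.Iface
import Pool.Agent.P.MP_d66c6d_pr.D.Iface

/-! Step APRL of the carpet project. -/

namespace Pool.Agent.P.MP_d66c6d_pr

open MeasureTheory ProbabilityTheory Set Metric Filter Topology
open scoped ENNReal

namespace AprlA

theorem shadow {X Γ : Set ℂ} {ε s η : ℝ} (hΓ : IsPreconnected Γ) (hs : 0 < s) (h1 : η ≤ s / 4)
    (h2 : η ≤ ε) (hn : ∀ y ∈ Γ, ∃ x ∈ X, dist y x < η)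
    (hX : ∀ x ∈ X, ∀ x' ∈ X, dist x x' < s →
      ∃ γ : Br, γ 0 = x ∧ γ 1 = x' ∧ range γ ⊆ X ∩ ball x ε)
    {y y' : ℂ} (hy : y ∈ Γ) (hy' : y' ∈ Γ) : ∀ x ∈ X, dist y x < η → ∀ x' ∈ X, dist y' x' < η →
      JoinedIn (X ∩ cthickening (2 * ε) Γ) x x' := by
  have loc : ∀ y ∈ Γ, ∀ y', dist y y' < s / 2 → ∀ x ∈ X, dist y x < η → ∀ x' ∈ X,
      dist y' x' < η → JoinedIn (X ∩ cthickening (2 * ε) Γ) x x' := by
    intro y hy y' hd x hx hxy x' hx' hxy'
    obtain ⟨γ, g0, g1, g2⟩ := hX x hx x' hx' (by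
      linarith [dist_triangle4 x y y' x', dist_comm x y])
    refine joinedIn_iff_br.2 ⟨γ, g0, g1, fun w hw => ⟨(g2 hw).1, ?_⟩⟩
    refine mem_cthickening_of_dist_le w y _ _ hy ?_
    have := mem_ball.1 (g2 hw).2
    linarith [dist_triangle w x y, dist_comm x y]
  refine hΓ.induction₂' (fun y y' => ∀ x ∈ X, dist y x < η → ∀ x' ∈ X, dist y' x' < η →
    JoinedIn (X ∩ cthickening (2 * ε) Γ) x x') (fun y hy => ?_) ?_ hy hy'
  · filter_upwards [self_mem_nhdsWithin, mem_nhdsWithin_of_mem_nhds (ball_mem_nhds y (half_pos hs))]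
      with y' h3 h4
    exact ⟨loc y hy y' (mem_ball'.1 h4), loc y' h3 y h4⟩
  · intro a b c _ hb _ hab hbc x hx hxa x' hx' hxc
    obtain ⟨w, hw, hwb⟩ := hn b hb
    exact (hab x hx hxa w hw hwb).trans (hbc w hw hwb x' hx' hxc)

theorem pc (g : Br) : IsPathConnected (range g) :=
  haveI : PathConnectedSpace unitInterval := isPathConnected_iff_pathConnectedSpace.1
    ((convex_Icc (0 : ℝ) 1).isPathConnected ⟨0, by simp⟩)
  isPathConnected_range g.continuous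

end AprlA

theorem p_APRL (hLNK : S_LNK) (hCOV : S_COV) (hDMON : S_DMON) :
    S_APRL := by
  intro V T c₀ c₁ a e hV hV3 hL hH hU hX he he0
  obtain ⟨τ, hτ, j₀, hX⟩ := hX (1 / 2) (by norm_num)
  refine ⟨τ / 234, by positivity, ?_⟩
  filter_upwards [eventually_ge_atTop j₀, he0.eventually (ge_mem_nhds (show (0 : ℝ) < 1 / 16 by
    norm_num))] with j hj hej hN
  obtain ⟨s, hs, C, j₁, hU⟩ := hU (e j) (he j)
  obtain ⟨c', hc', hK⟩ := hLNK V T c₀ c₁ hV hL hH (min (s / 4) (e j))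
    (lt_min (by positivity) (he j))
  obtain ⟨ξ, hξ, hK⟩ := hK c₀ ⟨le_rfl, hc'.1.le⟩ 1 one_pos
  obtain ⟨g, g0, g1, g2, g3⟩ := hN ξ hξ.1
  obtain ⟨γ, k0, k1, k2⟩ := hDMON.1 g 0 (5 / 4) (closedBall_subset_closedBall (by norm_num) g0)
    fun h => g1 (hV3 (ball_subset_ball (by norm_num) (h (mem_range_self 1))))
  have hn : ∀ y ∈ range γ, ∃ x ∈ carp (T c₀) V, dist y x < min (s / 4) (e j) := fun y hy => by
    have h1 : y ∈ V := hV3 (closedBall_subset_ball (by norm_num) (k2 hy).2)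
    have h2 : Out (T c₀) V ξ y := ⟨g 1, g1,
      ((AprlA.pc g).joinedIn y (k2 hy).1 _ (mem_range_self 1)).mono g2⟩
    obtain ⟨x, hx, -, -, h3, -⟩ := hK y h1 h2 y h1 h2
    exact ⟨x, hx, h3⟩
  obtain ⟨x, hx, hxd⟩ := hn _ (mem_range_self 0)
  obtain ⟨x', hx', hxd'⟩ := hn _ (mem_range_self 1)
  obtain ⟨σ, s0, s1, s2⟩ := joinedIn_iff_br.1 (AprlA.shadow (isPreconnected_range γ.continuous) hs
    (min_le_left _ _) (min_le_right _ _) hn (fun x hx x' hx' h => by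
      obtain ⟨β, b0, b1, b2, -⟩ := hU j₁ le_rfl x hx x' hx' h
      exact ⟨β, b0, b1, b2⟩) (mem_range_self 0) (mem_range_self 1) x hx hxd x' hx' hxd')
  refine hX j hj σ (s2.trans inter_subset_left) ?_ ?_
  · rw [s0, s1]
    rw [← k0, mem_closedBall] at g0
    rw [mem_sphere] at k1
    have := min_le_right (s / 4) (e j)
    linarith [dist_triangle4 (γ 1) x' x (γ 0), dist_triangle (γ 1) (γ 0) 0, dist_comm x x',
      dist_comm x (γ 0)]
  · refine ((hCOV (e j) _ (range γ) (he j)).2.2.2.1 2 (by norm_num)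
      (g3.mono le_rfl le_rfl k2)).mono le_rfl (le_of_eq ?_) (s2.trans inter_subset_right)
    ring

end Pool.Agent.P.MP_d66c6d_pr
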