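import Pool.Agent.P.MP_d66c6d_pr.H.Iface
import Pool.Agent.P.MP_d66c6d_pr.A.Iface

/-! Step APRU of the carpet project. -/

namespace Pool.Agent.P.MP_d66c6d_pr

open MeasureTheory ProbabilityTheory Set Metric Filter Topology
open scoped ENNReal

theorem p_APRU (hLNK : S_LNK) (hCOV : S_COV) :
    S_APRU := by
  classical
  intro V T c₀ c₁ a e a₀ hV h3 hL hH hX he he0 ha₀ ha
  obtain ⟨s, hs, C, j₀, hj₀⟩ := hX (1 / 10) (by norm_num)
  obtain ⟨t, -, ht, hcov⟩ := finite_cover_balls_of_compact (isCompact_closedBall (0 : ℂ) 1)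
    (show 0 < s / 4 by positivity)
  refine ⟨ht.toFinset.card * (650 * |C| + 2 / a₀), ?_⟩
  filter_upwards [ha, eventually_ge_atTop j₀,
    he0.eventually (gt_mem_nhds (show (0 : ℝ) < min (s / 4) (1 / 100) by positivity))]
    with j h1 h2 h4
  rw [lt_min_iff] at h4
  have hε := he j
  have hapos : 0 < a (e j) := ha₀.trans_le h1
  obtain ⟨c', hc', hK⟩ := hLNK V T c₀ c₁ hV hL hH (e j) hε
  refine ⟨c', hc'.1, fun c hc ξ hξ => ?_⟩
  obtain ⟨ξ', hξ', hK⟩ := hK c hc ξ hξ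
  refine ⟨ξ', hξ'.1, ?_⟩
  have hA : ∀ y ∈ Arm (Free ξ' (T c)) Vᶜ 0 1, y ∈ V ∧ Out (T c) V ξ' y := fun y hy =>
    ⟨h3 (ball_subset_ball (by norm_num) hy.1), hy.2⟩
  obtain ⟨I, hI⟩ : ∃ I : Finset ℂ, I = ht.toFinset.filter
      fun p => (ball p (s / 4) ∩ Arm (Free ξ' (T c)) Vᶜ 0 1).Nonempty := ⟨_, rfl⟩
  have hy : ∀ p : I, ∃ y, y ∈ ball (p : ℂ) (s / 4) ∩ Arm (Free ξ' (T c)) Vᶜ 0 1 := fun p =>
    (Finset.mem_filter.1 (hI.subset p.2)).2
  choose y hy using hy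
  refine ⟨I.card, fun i => y (I.equivFin.symm i), fun _ => 0, fun _ => ⌈650 * |C| * a (e j)⌉₊,
    ?_, fun i => ⟨le_rfl, hε, ?_⟩, fun u hu => ?_⟩
  · rw [Finset.sum_const, Finset.card_univ, Fintype.card_fin, nsmul_eq_mul,
      mul_assoc (ht.toFinset.card : ℝ)]
    have h5 : (I.card : ℝ) ≤ ht.toFinset.card := by
      rw [hI]
      exact_mod_cast Finset.card_filter_le _ _
    have h6 := Nat.ceil_lt_add_one (show 0 ≤ 650 * |C| * a (e j) by positivity)
    have h7 : 2 ≤ 2 / a₀ * a (e j) := by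
      rw [div_mul_eq_mul_div, le_div_iff₀ ha₀]
      linarith
    refine mul_le_mul h5 ?_ (by positivity) (Nat.cast_nonneg _)
    rw [add_mul]
    linarith
  · rw [closedBall_zero, singleton_subset_iff]
    obtain ⟨-, h5, w, -, h6⟩ := hy (I.equivFin.symm i)
    exact ⟨Free_mono hξ'.2 Subset.rfl h6.source_mem, ball_subset_ball (by norm_num) h5⟩
  · obtain ⟨p, hp, hup⟩ := mem_iUnion₂.1 (hcov (ball_subset_closedBall hu.1))
    have hpI : p ∈ I := by
      rw [hI, Finset.mem_filter, Finite.mem_toFinset]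
      exact ⟨hp, u, hup, hu⟩
    refine mem_iUnion.2 ⟨I.equivFin ⟨p, hpI⟩, subset_closure ?_⟩
    beta_reduce
    rw [Equiv.symm_apply_apply]
    obtain ⟨h5, h6⟩ := hy ⟨p, hpI⟩
    obtain ⟨x, hx, x', hx', d1, d2, hσ⟩ := hK u (hA u hu).1 (hA u hu).2 _ (hA _ h6).1 (hA _ h6).2
    have d3 : dist x x' < s := by
      rw [mem_ball] at h5 hup
      linarith [dist_triangle x u x', dist_triangle u (y ⟨p, hpI⟩) x',
        dist_triangle_right u (y ⟨p, hpI⟩) p, dist_comm x u, h4.1]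
    obtain ⟨σ, s0, s1, s2, s3⟩ := hj₀ j h2 x hx x' hx' d3
    obtain ⟨γ, g0, g1, g2⟩ := hσ σ s0 s1 fun v hv => (s2 hv).1
    refine ⟨γ, g0, by rw [g1]; exact mem_closedBall_self le_rfl,
      fun v hv => ⟨(g2 hv).1, ?_⟩, ?_⟩
    · obtain ⟨w, hw, hvw⟩ := mem_thickening_iff.1 (g2 hv).2
      have h7 := mem_ball.1 (s2 hw).2
      have h8 := mem_ball.1 hu.1
      rw [mem_ball]
      linarith [dist_triangle v w 0, dist_triangle w x 0, dist_triangle_left x 0 u,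
        dist_comm u 0, h4.2]
    · refine ((hCOV (e j) _ _ hε).2.2.2.1 4 (by norm_num) s3).mono le_rfl ?_
        fun v hv => thickening_subset_cthickening _ _ (g2 hv).2
      refine le_trans ?_ (Nat.le_ceil _)
      nlinarith [mul_le_mul_of_nonneg_right (le_abs_self C) hapos.le]

end Pool.Agent.P.MP_d66c6d_pr
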