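import Pool.Agent.P.MP_d66c6d_pr.H.Iface
import Pool.Agent.P.MP_d66c6d_pr.A.Iface
import Pool.Agent.P.MP_d66c6d_pr.T.Iface
import Pool.Agent.P.MP_d66c6d_pr.S.Covr

/-! Step ATT of the carpet project. -/

namespace Pool.Agent.P.MP_d66c6d_pr

open MeasureTheory ProbabilityTheory Set Metric Filter Topology
open scoped ENNReal

namespace AttA

/-- A path in a filled set that circles around its rational positions has them in the interior. -/
theorem mem_int {γ : Br} (hq : HitQ γ univ) {Z : Set ℂ} (hZ : fill Z = Z) (hγ : range γ ⊆ Z)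
    (q : ℚ) (σ : unitInterval) (h : (σ : ℝ) = q) (h1 : (σ : ℝ) < 1) : γ σ ∈ interior Z := by
  have h0 : (0 : ℚ) ≤ q := by
    have := σ.2.1
    rw [h] at this
    exact_mod_cast this
  have hc : Circ γ σ := hq q σ h.ge h1 h0 (mem_univ _) fun u h2 h3 =>
    absurd (show (σ : ℝ) ≤ u from h.trans_le h2) (not_le.2 h3)
  obtain ⟨s, t, -, -, -, hi⟩ := hc 1 one_pos
  exact interior_mono ((fill_mono ((image_subset_range _ _).trans hγ)).trans hZ.subset) hi

theorem pieces (γ : Br) {W : Set ℂ}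
    (hW : ∀ (q : ℚ) (σ : unitInterval), (σ : ℝ) = q → (σ : ℝ) < 1 → γ σ ∈ W) {w : ℝ} (hw : 0 < w) :
    ∃ 𝒜 : Set (Set ℂ), 𝒜.Finite ∧ ⋃₀ 𝒜 = range γ ∧
      ∀ P ∈ 𝒜, IsCompact P ∧ IsPreconnected P ∧ diam P ≤ w ∧ (P ∩ W).Nonempty := by
  obtain ⟨δ, hδ, hc⟩ := Metric.uniformContinuous_iff.1
    (CompactSpace.uniformContinuous_of_continuous γ.continuous) w hw
  obtain ⟨b, hb, hf, hcov⟩ := (isCompact_univ (X := unitInterval)).elim_finite_subcover_image
    (b := {q : ℚ | (0 : ℝ) ≤ q ∧ (q : ℝ) < 1})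
    (c := fun q => {u : unitInterval | (q : ℝ) - δ / 3 < u ∧ (u : ℝ) < q + δ / 3})
    (fun q _ => (isOpen_lt continuous_const continuous_subtype_val).inter
      (isOpen_lt continuous_subtype_val continuous_const)) (by
      intro u _
      have : max 0 ((u : ℝ) - δ / 3) < min 1 ((u : ℝ) + δ / 3) := by
        have h0 := u.2.1
        have h1 := u.2.2
        rw [max_lt_iff, lt_min_iff, lt_min_iff]
        refine ⟨⟨one_pos, ?_⟩, ?_, ?_⟩ <;> linarith
      obtain ⟨q, h1, h2⟩ := exists_rat_btwn this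
      rw [max_lt_iff] at h1
      rw [lt_min_iff] at h2
      refine mem_biUnion (x := q) ⟨h1.1.le, h2.1⟩ ⟨?_, ?_⟩ <;> linarith [h1.2, h2.2])
  refine ⟨(fun q : ℚ => piece γ (q - δ / 3) (q + δ / 3)) '' b, hf.image _, ?_, ?_⟩
  · refine Subset.antisymm (sUnion_subset ?_) ?_
    · rintro _ ⟨q, -, rfl⟩
      exact image_subset_range _ _
    · rintro _ ⟨u, rfl⟩
      obtain ⟨q, h1, h2⟩ := mem_iUnion₂.1 (hcov (mem_univ u))
      exact ⟨_, ⟨q, h1, rfl⟩, u, ⟨h2.1.le, h2.2.le⟩, rfl⟩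
  · rintro _ ⟨q, hq, rfl⟩
    refine ⟨((isClosed_le continuous_const continuous_subtype_val).inter
      (isClosed_le continuous_subtype_val continuous_const)).isCompact.image γ.continuous,
      IsPreconnected.image (OrdConnected.isPreconnected
        (s := {u : unitInterval | (q : ℝ) - δ / 3 ≤ u ∧ (u : ℝ) ≤ q + δ / 3})
        ⟨fun u hu v hv x hx => ⟨hu.1.trans (Subtype.coe_le_coe.2 hx.1),
          (Subtype.coe_le_coe.2 hx.2).trans hv.2⟩⟩) _ γ.continuous.continuousOn,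
      diam_le_of_forall_dist_le hw.le ?_, γ ⟨q, (hb hq).1, (hb hq).2.le⟩,
      ⟨⟨q, (hb hq).1, (hb hq).2.le⟩, ⟨?_, ?_⟩, rfl⟩, hW q _ rfl (hb hq).2⟩
    · rintro _ ⟨u, hu, rfl⟩ _ ⟨v, hv, rfl⟩
      refine (hc ?_).le
      rw [Subtype.dist_eq, Real.dist_eq, abs_lt]
      constructor <;> linarith [hu.1, hu.2, hv.1, hv.2]
    · change (q : ℝ) - δ / 3 ≤ q
      linarith
    · change (q : ℝ) ≤ q + δ / 3
      linarith

end AttA

open CovrA AttA in
theorem p_ATT (hJOR : S_JOR) (hFILL : S_FILL) :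
    S_ATT := by
  intro V T c₀ c₁ hV h H W hW
  have h01 : T c₀ ⊆ T c₁ := h.mono c₀ c₁ le_rfl h.lt.le le_rfl
  obtain ⟨jo, -, -, jc, ji, -, -, -, jf, -⟩ := hJOR W (H.jor W hW)
  have p1 : ∀ K ∈ T c₀, (K ∩ closure W).Nonempty → K ⊆ closure W := by
    intro K hK ⟨x, h1, h2⟩
    obtain ⟨W', hW', h3⟩ := H.mem K hK
    by_cases e : W = W'
    · rwa [e]
    · exact absurd (h3 h1) (Set.disjoint_left.1 (H.disj W hW W' hW' e) h2)
  have p2 : ∀ K ∈ T c₀, K ⊆ closure W → ∃ γ : Br, range γ = K ∧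
      ∀ (q : ℚ) (σ : unitInterval), (σ : ℝ) = q → (σ : ℝ) < 1 → γ σ ∈ W := by
    intro K hK hKW
    obtain ⟨γ, hγ, -, hq, -⟩ := h.hit K hK
    refine ⟨γ, hγ, fun q σ h1 h2 => ?_⟩
    rw [← ji]
    exact mem_int hq jf (hγ.subset.trans hKW) q σ h1 h2
  have p3 : ∀ K ∈ T c₀, (K ∩ closure W).Nonempty → ∀ M, Lk (T c₀) K M → M ⊆ closure W := by
    intro K hK hn M hM
    induction hM with
    | refl => exact p1 K hK hn
    | tail _ h2 ih =>
      obtain ⟨x, h3, h4⟩ := h2.2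
      exact p1 _ h2.1 ⟨x, h4, ih h3⟩
  obtain ⟨hWV, K, hK, hcl⟩ := H.cl W hW
  have hKW : closure (cluster (T c₀) K) ⊆ closure W := hcl ▸ subset_fill _
  have hKc : IsCompact (closure (cluster (T c₀) K)) := jc.of_isClosed_subset isClosed_closure hKW
  obtain ⟨γ, hγ, hγW⟩ := p2 K hK (((sub_cl .refl).trans subset_closure).trans hKW)
  obtain ⟨q, hq0, hxD, hD⟩ := exists_disc jo (hγW 0 0 (by simp) (by simp))
  obtain ⟨e1, e2⟩ := h.exd q hq0 ((hD.trans subset_closure).trans hWV)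
  generalize closedBall (qp q) (q.2.2 : ℝ) = D at hxD hD e1 e2
  have hKL : closure (cluster (T c₀) K) ⊆ D ∪ closure (clD (T c₀) D) := by
    refine (closure_mono ?_).trans subset_union_right
    exact subset_biUnion_of_mem (u := fun K => cluster (T c₀) K)
      ⟨hK, γ 0, hγ ▸ mem_range_self 0, hxD⟩
  have hLW : D ∪ closure (clD (T c₀) D) ⊆ closure W := by
    refine union_subset (hD.trans subset_closure) (closure_minimal ?_ isClosed_closure)
    intro y hy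
    obtain ⟨M, ⟨hM, z, z1, z2⟩, M', h1, h2⟩ := mem_iUnion₂.1 hy
    exact p3 M hM ⟨z, z1, subset_closure (hD z2)⟩ M' h1 h2
  obtain ⟨-, -, -, f4, -, -, -, -, f9⟩ := hFILL _ hKc
  rw [← hcl] at f4 f9
  refine ⟨p1, fun M hM hMW w hw => ?_, fun A hA ⟨x, h1, h2⟩ => ?_, fun w hw => ?_⟩
  · obtain ⟨α, rfl, hα⟩ := p2 M hM hMW
    exact pieces α hα hw
  · by_cases hx : x ∈ W
    · exact Or.inl ⟨x, h1, hx⟩
    have h3 : x ∈ frontier (closure W) := ⟨subset_closure h2, by rwa [ji]⟩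
    obtain ⟨y, y1, y2 | y2⟩ := e1 A hA ⟨x, h1, hKL (f4 h3)⟩
    · exact Or.inl ⟨y, y1, hD y2⟩
    · obtain ⟨M, ⟨hM, z, z1, z2⟩, M', h4, h5⟩ := mem_iUnion₂.1 y2
      exact Or.inr ⟨M', Lk.mem hM h4, p3 M hM ⟨z, z1, subset_closure (hD z2)⟩ M' h4, y, y1, h5⟩
  generalize D ∪ closure (clD (T c₀) D) = L at e2 hKL hLW
  obtain ⟨η, hη, hs⟩ := h.subc (w / 2) (by positivity)
  have hC : ∀ B ∈ T c₁, Disjoint B (closure W) →
      Disjoint (closure W) (closure (cluster {B ∈ T c₁ | Disjoint B L} B)) := by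
    intro B hB hd
    have hne := (h.tame.1 B hB).2.1.nonempty
    have hpre : IsPreconnected (closure (cluster {B ∈ T c₁ | Disjoint B L} B)) :=
      (isPreconnected_cluster (T := {B ∈ T c₁ | Disjoint B L})
        (fun A hA => (h.tame.1 A hA.1).2.1.isConnected.isPreconnected)
        ⟨hB, hd.mono_right hLW⟩ hne).closure
    rcases f9 _ hpre ((e2 B hB (hd.mono_right hLW)).mono_right hKL) with h1 | h1
    · obtain ⟨x, hx⟩ := hne
      exact absurd (interior_subset (h1 (subset_closure (sub_cl .refl hx))))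
        (Set.disjoint_left.1 hd hx)
    · exact Set.disjoint_right.2 h1
  have hfin : {B ∈ T c₁ | η ≤ diam B ∧ Disjoint B (closure W)}.Finite :=
    (h.tame.2 η hη).subset fun B hB => ⟨hB.1, hB.2.1⟩
  obtain ⟨d, hd, hdd⟩ := Disjoint.exists_thickenings
    (s := closure W) (t := ⋃ B ∈ {B ∈ T c₁ | η ≤ diam B ∧ Disjoint B (closure W)},
      closure (cluster {B ∈ T c₁ | Disjoint B L} B))
    (disjoint_iUnion₂_right.2 fun B hB => hC B hB.1 hB.2.2) jc
    (hfin.isClosed_biUnion fun _ _ => isClosed_closure)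
  obtain ⟨c', hc', hrc⟩ := h.rc (min d (w / 2)) (by positivity)
  have h1' : T c' ⊆ T c₁ := h.mono c' c₁ hc'.1.le hc'.2 le_rfl
  refine ⟨c', hc', fun A hA hA0 ⟨a, a1, a2⟩ y ⟨B, hB, hy⟩ => ?_⟩
  have hAd : ∀ x ∈ A, dist x a < min d (w / 2) := fun x hx =>
    (dist_le_diam_of_mem (h.tame.1 A (h1' hA)).1.isBounded hx a1).trans_lt
      (not_le.1 fun h2 => hA0 (hrc A hA h2))
  refine mem_thickening_iff.2 ⟨a, a2, ?_⟩
  rcases Relation.ReflTransGen.cases_head hB with rfl | ⟨B₁, ⟨hB₁, x, x1, x2⟩, hl⟩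
  · linarith [(hAd y hy).trans_le (min_le_right _ _)]
  by_cases hbig : ∃ M, Lk {B ∈ T c' | Disjoint B (closure W)} B₁ M ∧ η ≤ diam M
  · obtain ⟨M, hM, hMd⟩ := hbig
    have hM' := Lk.mem hB₁ hM
    have h2 : x ∈ cluster {B ∈ T c₁ | Disjoint B L} M :=
      sub_cl (Lk.mono (T' := {B ∈ T c₁ | Disjoint B L})
        (fun B hB => ⟨h1' hB.1, hB.2.mono_right hLW⟩) (Lk.symm hB₁ hM)) x2
    refine absurd (self_subset_thickening hd _ ?_) (Set.disjoint_left.1 hdd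
      (mem_thickening_iff.2 ⟨a, a2, (hAd x x1).trans_le (min_le_left _ _)⟩))
    exact mem_biUnion (x := M) ⟨h1' hM'.1, hMd, hM'.2⟩ (subset_closure h2)
  · have h2 : ∀ M ∈ {B ∈ T c' | Disjoint B (closure W)},
        Lk {B ∈ T c' | Disjoint B (closure W)} B₁ M → M ∈ {K' ∈ T c₁ | diam K' < η} :=
      fun M hM hl => ⟨h1' hM.1, not_le.1 fun h3 => hbig ⟨M, hl, h3⟩⟩
    have h3 := hs B₁ (h1' hB₁.1) (h2 B₁ hB₁ .refl).2 x x2 y (cl_sub h2 (sub_cl hl hy))
    have h4 := (hAd x x1).trans_le (min_le_right _ _)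
    linarith [dist_triangle_left y a x, dist_comm x a]

end Pool.Agent.P.MP_d66c6d_pr
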