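import Pool.Agent.P.MP_d66c6d_pr.H.Iface
import Pool.Agent.P.MP_d66c6d_pr.A.Iface
import Pool.Agent.P.MP_d66c6d_pr.D.Iface
import Pool.Agent.P.MP_d66c6d_pr.S.Surr

/-! Step BBG of the carpet project. -/

namespace Pool.Agent.P.MP_d66c6d_pr

open MeasureTheory ProbabilityTheory Set Metric Filter Topology
open scoped ENNReal

namespace BbgA

theorem piece (hDMON : S_DMON) (g : Br) (h0 : g 0 ∈ closedBall (0 : ℂ) (1 / 2))
    (h1 : g 1 ∉ ball (0 : ℂ) 3) : ∃ A : Set ℂ, IsCompact A ∧ IsPreconnected A ∧ A ⊆ range g ∧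
      (∀ z ∈ A, 1 ≤ ‖z‖ ∧ ‖z‖ ≤ 5 / 4) ∧ (∃ a ∈ A, ‖a‖ = 1) ∧ ∃ b ∈ A, ‖b‖ = 5 / 4 := by
  obtain ⟨γ, g0, g1, g2⟩ := hDMON.1 g 0 (5 / 4) (closedBall_subset_closedBall (by norm_num) h0)
    fun h => h1 (ball_subset_ball (by norm_num) (h ⟨1, rfl⟩))
  have hc : Continuous fun t => ‖γ t‖ := by fun_prop
  rw [mem_sphere_zero_iff_norm] at g1
  rw [← g0, mem_closedBall_zero_iff] at h0
  have ivt : ∀ t, ‖γ t‖ ≤ 1 → ∃ u, t ≤ u ∧ ‖γ u‖ = 1 := fun t ht => by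
    obtain ⟨u, hu, e⟩ := intermediate_value_Icc (show t ≤ 1 from unitInterval.le_one t)
      hc.continuousOn (show (1 : ℝ) ∈ Icc ‖γ t‖ ‖γ 1‖ from ⟨ht, by rw [g1]; norm_num⟩)
    exact ⟨u, hu.1, e⟩
  obtain ⟨s, hs, hs'⟩ := (isClosed_eq hc continuous_const :
    IsClosed {t | ‖γ t‖ = 1}).isCompact.exists_isGreatest
      ((ivt 0 (by linarith)).imp fun _ h => h.2)
  refine ⟨γ '' Icc s 1, isCompact_Icc.image γ.continuous,
    isPreconnected_Icc.image _ γ.continuous.continuousOn, ?_, ?_,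
    ⟨_, ⟨s, ⟨le_rfl, unitInterval.le_one s⟩, rfl⟩, hs⟩,
    _, ⟨1, ⟨unitInterval.le_one s, le_rfl⟩, rfl⟩, g1⟩
  · rintro _ ⟨t, -, rfl⟩
    exact (g2 ⟨t, rfl⟩).1
  · rintro _ ⟨t, ht, rfl⟩
    refine ⟨?_, mem_closedBall_zero_iff.1 (g2 ⟨t, rfl⟩).2⟩
    by_contra c
    obtain ⟨u, u1, u2⟩ := ivt t (not_le.1 c).le
    obtain rfl : t = s := le_antisymm (u1.trans (hs' u2)) ht.1
    exact c (le_of_eq hs.symm)

theorem diam_pos_of {K : Set ℂ} {x : ℂ} {s r : ℝ} (hs : 0 < s) (h : ball x s ⊆ fill K)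
    (hK : K ⊆ ball x r) : 0 < diam K := by
  refine diam_pos ?_ (isBounded_ball.subset hK)
  by_contra c
  obtain ⟨p, hp⟩ : ∃ p, K ⊆ ball p (s / 8) := by
    rcases (not_nontrivial_iff.1 c).eq_empty_or_singleton with rfl | ⟨p, rfl⟩
    · exact ⟨x, empty_subset _⟩
    · exact ⟨p, singleton_subset_iff.2 (mem_ball_self (by positivity))⟩
  have k := h.trans (fill_subset_ball (by positivity) hp)
  have e : dist (x + (s / 2 : ℝ)) x = s / 2 := by
    rw [dist_eq_norm, add_sub_cancel_left, Complex.norm_real, Real.norm_of_nonneg (by positivity)]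
  have k1 := mem_ball.1 (k (mem_ball_self hs))
  have k2 := mem_ball.1 (k (show x + (s / 2 : ℝ) ∈ ball x s from mem_ball.2 (by linarith)))
  have := dist_triangle_right (x + (s / 2 : ℝ)) x p
  linarith

end BbgA

theorem p_BBG (hLNK : S_LNK) (hCONT : S_CONT) (hJOR : S_JOR) (hDMON : S_DMON) :
    S_BBG := by
  intro V T c₀ c₁ hV h3 hL hH
  obtain ⟨D₀, hD₀, hD₁⟩ := hCONT.2.2
  have hj := hH.jor
  choose! φ hφ using hj
  refine ⟨(⋃ W ∈ {W ∈ cleIn2 (T c₀) V | 1 / 25 ≤ diam W}, φ W '' D₀) ∩ closedBall 0 2,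
    ((hH.fin _ (by norm_num)).countable.biUnion fun W _ => hD₀.image _).mono inter_subset_left,
    inter_subset_right, fun T' hT hbig hD => ?_⟩
  by_contra hn
  push Not at hn
  have hpos : ∀ n : ℕ, (0 : ℝ) < 1 / (n + 1) := fun n => by positivity
  choose g g0 g1 g2 g3 using fun n : ℕ => hn _ (hpos n) _ (hpos n)
  choose A a1 a2 a3 a4 a5 a6 using fun n => BbgA.piece hDMON (g n) (g0 n) fun h => g1 n (h3 h)
  obtain ⟨Λ, ψ, l1, l2, l3, l4⟩ := hCONT.2.1 A (closedBall 0 (5 / 4)) (isCompact_closedBall _ _)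
    fun n => ⟨a1 n, a2 n, (a5 n).imp fun _ h => h.1,
      fun z hz => mem_closedBall_zero_iff.2 (a4 n z hz).2⟩
  have hsm : ∀ ξ > (0 : ℝ), ∀ᶠ n in atTop, 1 / ((ψ n : ℝ) + 1) ≤ ξ := fun ξ hξ =>
    ((tendsto_one_div_add_atTop_nhds_zero_nat.comp l3.tendsto_atTop).eventually_le_const hξ)
  have near : ∀ z ∈ Λ, ∀ η > (0 : ℝ), ∀ ξ > (0 : ℝ),
      ∃ n : ℕ, 1 / ((n : ℝ) + 1) ≤ ξ ∧ ∃ y ∈ A n, dist z y < η := fun z hz η hη ξ hξ => by
    obtain ⟨n, n1, n2⟩ := ((hsm ξ hξ).and (l4 η hη)).exists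
    exact ⟨ψ n, n1, mem_thickening_iff.1 (n2.2 hz)⟩
  have hnt : Λ.Nontrivial := by
    obtain ⟨n, n1, -⟩ := (l4 (1 / 16) (by norm_num)).exists
    obtain ⟨a, ha, ea⟩ := a5 (ψ n)
    obtain ⟨b, hb, eb⟩ := a6 (ψ n)
    obtain ⟨a', ha', da⟩ := mem_thickening_iff.1 (n1 ha)
    obtain ⟨b', hb', db⟩ := mem_thickening_iff.1 (n1 hb)
    refine ⟨a', ha', b', hb', ?_⟩
    rintro rfl
    have k1 := dist_triangle_right b a a'
    have k2 := norm_sub_norm_le b a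
    rw [← dist_eq_norm] at k2
    linarith
  have hb2 : Λ ⊆ closedBall 0 2 := fun z hz => by
    obtain ⟨n, -, y, hy, d⟩ := near z hz (1 / 2) (by norm_num) 1 one_pos
    have k1 := (a4 n y hy).2
    have k2 := norm_sub_norm_le z y
    rw [← dist_eq_norm] at k2
    rw [mem_closedBall_zero_iff]
    linarith
  have hcarp : Λ ⊆ carp (T c₀) V := fun z hz => by
    have hc : IsClosed (carp (T c₀) V) :=
      isClosed_closure.sdiff (isOpen_sUnion fun W hW => (hJOR W (hH.jor W hW)).1)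
    rw [← hc.closure_eq, Metric.mem_closure_iff]
    intro ε hε
    obtain ⟨c', hc', k⟩ := hLNK V T c₀ c₁ hV hL hH (ε / 2) (by positivity)
    obtain ⟨ξ', hξ', k⟩ := k c₀ ⟨le_rfl, hc'.1.le⟩ 1 one_pos
    obtain ⟨n, n1, y, hy, d⟩ := near z hz (ε / 2) (by positivity) ξ' hξ'.1
    have yV : y ∈ V := h3 (mem_ball_zero_iff.2 (by linarith [(a4 n y hy).2]))
    have yO : Out (T c₀) V ξ' y := by
      obtain ⟨t, rfl⟩ := a3 n hy
      obtain ⟨γ, e0, e1, e2⟩ := exists_br_piece (g n) (s := t) (t := 1) (unitInterval.le_one t)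
      refine ⟨g n 1, g1 n, joinedIn_iff_br.2 ⟨γ, e0, e1, ?_⟩⟩
      rw [e2]
      exact (image_subset_range _ _).trans ((g2 n).trans (Free_mono n1 hT))
    obtain ⟨x, hx, -, -, dx, -⟩ := k y yV yO y yV yO
    exact ⟨x, hx, by linarith [dist_triangle z y x]⟩
  have tame : Tame (T c₀) := hL.tame.mono (hL.mono _ _ le_rfl hL.lt.le le_rfl)
  have hTT : Λ ⊆ TT (1 / 25) (T c₀) := fun z hz => by
    have hc : IsClosed (TT (1 / 25) (T c₀)) := by
      rw [← isOpen_compl_iff, ← tame.free (by norm_num)]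
      exact isOpen_Free _ _
    rw [← hc.closure_eq, Metric.mem_closure_iff]
    intro ε hε
    obtain ⟨n, n1, y, hy, d⟩ := near z hz (ε / 2) (by positivity) (min (ε / 2) (1 / 2))
      (by positivity)
    have k1 := a4 n y hy
    obtain ⟨t, rfl⟩ := a3 n hy
    obtain ⟨w, hw, dw⟩ := mem_thickening_iff.1 (g3 n t (by rw [dist_zero_right]; exact k1.1)
      (by rw [dist_zero_right]; linarith [k1.2]))
    obtain ⟨K, K1, K2, K3⟩ := mem_TT.1 hw
    have m1 := n1.trans (min_le_left _ _)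
    have m2 := n1.trans (min_le_right _ _)
    refine ⟨w, mem_TT.2 ⟨K, hbig K K1 K2 ⟨w, K3, ?_⟩, K2, K3⟩, by
      linarith [dist_triangle z (g n t) w]⟩
    have k2 := norm_sub_norm_le w (g n t)
    rw [← dist_eq_norm, dist_comm] at k2
    rw [mem_closedBall_zero_iff]
    linarith [k1.2]
  obtain ⟨K, hK, Λ', m1, m2, m3⟩ := hCONT.1 Λ _ l1 l2 hnt (tame.2 (1 / 25) (by norm_num))
    (fun C hC => (tame.1 C hC.1).1.isClosed) hTT
  obtain ⟨W, hW, hKW⟩ := hH.mem K hK.1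
  have hWd : 1 / 25 ≤ diam W := by
    rw [← diam_closure]
    exact hK.2.trans (diam_mono hKW (hJOR W (hH.jor W hW)).2.2.2.1.isBounded)
  obtain ⟨d, ⟨x, hx, rfl⟩, hd⟩ := hD₁ ((φ W).symm '' Λ') (by
      rintro _ ⟨z, hz, rfl⟩
      have k1 := hKW (m1 hz).2
      have k2 : z ∉ W := fun h => (hcarp (m1 hz).1).2 ⟨W, hW, h⟩
      have e := hφ W hW
      generalize φ W = f at e ⊢
      subst e
      rw [← f.image_closure, closure_ball _ one_ne_zero] at k1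
      obtain ⟨u, hu, rfl⟩ := k1
      rw [f.symm_apply_apply, ← closedBall_sdiff_ball]
      exact ⟨hu, fun h => k2 ⟨u, h, rfl⟩⟩)
    (m2.image _ (φ W).symm.continuous.continuousOn) (m3.image (φ W).symm.injective)
  have xΛ := (m1 hx).1
  obtain ⟨K', K1, s, hs, K2, K3⟩ := hD x
    ⟨mem_biUnion (t := fun W => φ W '' D₀) ⟨hW, hWd⟩ ⟨_, hd, (φ W).apply_symm_apply x⟩, hb2 xΛ⟩
    (1 / 10) (by norm_num)
  obtain ⟨n, n1, y, hy, dy⟩ := near x xΛ s hs _ (BbgA.diam_pos_of hs K2 K3)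
  have k1 := fill_subset_ball (by norm_num) K3 (fill_conn (isPreconnected_range (g n).continuous)
    ((Free.disjoint K1 n1).mono_left (g2 n)) (a3 n hy) ⟨1, rfl⟩ (K2 (mem_ball'.2 dy)))
  refine g1 n (h3 ?_)
  have k2 := mem_closedBall.1 (hb2 xΛ)
  rw [mem_ball] at k1 ⊢
  linarith [dist_triangle (g n 1) x 0]

end Pool.Agent.P.MP_d66c6d_pr
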