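import Pool.Agent.P.MP_d66c6d_pr.H.Iface
import Pool.Agent.P.MP_d66c6d_pr.E.Iface

/-! Step CONT of the carpet project. -/

namespace Pool.Agent.P.MP_d66c6d_pr

open MeasureTheory ProbabilityTheory Set Metric Filter Topology
open scoped ENNReal

namespace ContA

theorem rat {Λ : Set ℂ} (hc : IsPreconnected Λ) {f : ℂ → ℝ} (hf : Continuous f) {x y : ℂ}
    (hx : x ∈ Λ) (hy : y ∈ Λ) (h : f x ≠ f y) : ∃ z ∈ Λ, ∃ q : ℚ, f z = q := by
  wlog h' : f x < f y generalizing x y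
  · exact this hy hx h.symm (lt_of_le_of_ne (not_lt.1 h') h.symm)
  obtain ⟨q, h1, h2⟩ := exists_rat_btwn h'
  obtain ⟨z, hz, e⟩ := hc.intermediate_value hx hy hf.continuousOn ⟨h1.le, h2.le⟩
  exact ⟨z, hz, q, e⟩

theorem root {a b : ℝ} (h : a * a + b * b = 1) : b = √(1 - a * a) ∨ b = -√(1 - a * a) := by
  rw [show 1 - a * a = b * b by linarith, Real.sqrt_mul_self_eq_abs]
  rcases abs_cases b with h | h
  · exact Or.inl h.1.symm
  · exact Or.inr (by rw [h.1, neg_neg])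

end ContA

theorem p_CONT (hBUMP : S_BUMP) :
    S_CONT := by
  refine ⟨fun Λ 𝒞 hΛ hc hn hf hcl hs => ?_, fun A M hM hA => ?_, ?_⟩
  · have := isCompact_iff_compactSpace.1 hΛ
    have := hn.nonempty.to_subtype
    have := hf.countable.to_subtype
    obtain ⟨C, x, hx⟩ := nonempty_interior_of_iUnion_of_closed
      (f := fun C : 𝒞 => (Subtype.val : Λ → ℂ) ⁻¹' C.1)
      (fun C => (hcl C.1 C.2).preimage continuous_subtype_val) (eq_univ_of_forall fun x => by
        obtain ⟨C, hC, hx⟩ := hs x.2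
        exact mem_iUnion.2 ⟨⟨C, hC⟩, hx⟩)
    obtain ⟨r, hr, hb⟩ := Metric.mem_nhds_iff.1 (mem_interior_iff_mem_nhds.1 hx)
    obtain ⟨y, hy, hyx⟩ := hn.exists_ne x.1
    have hρ : 0 < min (r / 2) (dist y x.1) := lt_min (half_pos hr) (dist_pos.2 hyx)
    obtain ⟨Γ, h1, -, h2, h3, h4⟩ := hBUMP Λ x.1 x.1 _ hΛ hc x.2 (mem_closedBall_self hρ.le)
      fun h => absurd (mem_ball.1 (h hy)) (not_lt.2 (min_le_right _ _))
    obtain ⟨z, hz, hz'⟩ := not_subset.1 h4
    refine ⟨C.1, C.2, Γ, fun w hw => ⟨(h1 hw).1, hb (a := ⟨w, (h1 hw).1⟩) ?_⟩, h2,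
      z, hz, x.1, h3, fun e => hz' (mem_of_eq_of_mem e (mem_ball_self hρ))⟩
    exact ((h1 hw).2.trans (min_le_left _ _)).trans_lt (half_lt_self hr)
  · obtain ⟨K, -, φ, hφ, hK⟩ :=
      (TopologicalSpace.NonemptyCompacts.isCompact_subsets_of_isCompact hM).tendsto_subseq
        (x := fun n => (⟨⟨A n, (hA n).1⟩, (hA n).2.2.1⟩ : KC)) fun n => (hA n).2.2.2
    refine ⟨K, φ, K.isCompact, isPreconnected_closed_iff.2 fun t t' ht ht' hs h1 h2 => ?_, hφ,
      fun η hη => ?_⟩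
    · by_contra hn
      obtain ⟨U, V, hU, hV, hU', hV', hd⟩ := normal_separation (K.isCompact.isClosed.inter ht)
        (K.isCompact.isClosed.inter ht')
        (disjoint_left.2 fun z h h' => hn ⟨z, h.1, h.2, h'.2⟩)
      obtain ⟨n, e1, e2, e3⟩ := ((hK.eventually
        ((TopologicalSpace.NonemptyCompacts.isOpen_subsets_of_isOpen (hU.union hV)).mem_nhds
          fun z hz => (hs hz).imp (fun h => hU' ⟨hz, h⟩) fun h => hV' ⟨hz, h⟩)).and
        ((hK.eventually ((TopologicalSpace.NonemptyCompacts.isOpen_inter_nonempty_of_isOpen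
          hU).mem_nhds (h1.imp fun z h => ⟨h.1, hU' h⟩))).and
        (hK.eventually ((TopologicalSpace.NonemptyCompacts.isOpen_inter_nonempty_of_isOpen
          hV).mem_nhds (h2.imp fun z h => ⟨h.1, hV' h⟩))))).exists
      obtain ⟨z, -, hz⟩ := (hA (φ n)).2.1 U V hU hV e1 e2 e3
      exact disjoint_left.1 hd hz.1 hz.2
    · filter_upwards [Metric.tendsto_nhds.1 hK η hη] with n h
      exact ⟨subset_thickening_of_dist h, subset_thickening_of_dist (dist_comm K _ ▸ h)⟩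
  · refine ⟨⋃ q : ℚ, {⟨q, √(1 - q * q)⟩, ⟨q, -√(1 - q * q)⟩, ⟨√(1 - q * q), q⟩,
      ⟨-√(1 - q * q), q⟩}, countable_iUnion fun _ => (toFinite _).countable,
      fun Λ hΛ hc ⟨x, hx, y, hy, hxy⟩ => ?_⟩
    have hn : ∀ z ∈ Λ, z.re * z.re + z.im * z.im = 1 := fun z hz => by
      rw [← Complex.normSq_apply, Complex.normSq_eq_norm_sq, mem_sphere_zero_iff_norm.1 (hΛ hz),
        one_pow]
    by_cases h : x.re = y.re
    · obtain ⟨z, hz, q, e⟩ := ContA.rat hc Complex.continuous_im hx hy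
        fun h' => hxy (Complex.ext h h')
      refine ⟨z, hz, mem_iUnion.2 ⟨q, Or.inr (Or.inr ?_)⟩⟩
      exact (ContA.root (e ▸ (add_comm _ _).trans (hn z hz))).imp (fun h => Complex.ext h e)
        fun h => Complex.ext h e
    · obtain ⟨z, hz, q, e⟩ := ContA.rat hc Complex.continuous_re hx hy h
      refine ⟨z, hz, mem_iUnion.2 ⟨q, ?_⟩⟩
      exact (ContA.root (e ▸ hn z hz)).imp (fun h => Complex.ext e h)
        fun h => Or.inl (Complex.ext e h)

end Pool.Agent.P.MP_d66c6d_pr
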