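import Pool.Agent.P.MP_d66c6d_pr.H.Iface
import Pool.Agent.P.MP_d66c6d_pr.S.Iface2
import Pool.Agent.P.MP_d66c6d_pr.A.Iface
import Pool.Agent.P.MP_d66c6d_pr.T.Iface
import Pool.Agent.P.MP_d66c6d_pr.S.Covr

/-! Step HOL of the carpet project. -/

namespace Pool.Agent.P.MP_d66c6d_pr

open MeasureTheory ProbabilityTheory Set Metric Filter Topology
open scoped ENNReal

namespace HolA

theorem loop_sub {γ : Br} (h : HitQ γ univ) : range γ ⊆ closure (interior (fill (range γ))) := by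
  rintro _ ⟨u, rfl⟩
  refine Metric.mem_closure_iff.2 fun ε hε => ?_
  obtain ⟨δ, hδ, hc⟩ := Metric.continuousAt_iff.1 (γ.continuous.continuousAt (x := u)) ε hε
  have h0 := u.2.1
  have h1 := u.2.2
  obtain ⟨q, q1, q2⟩ := exists_rat_btwn (show max 0 ((u : ℝ) - δ) < min 1 ((u : ℝ) + δ) from
    max_lt (lt_min one_pos (by linarith)) (lt_min (by linarith) (by linarith)))
  rw [max_lt_iff] at q1
  rw [lt_min_iff] at q2
  obtain ⟨s, t, -, -, -, hi⟩ := h q ⟨q, q1.1.le, q2.1.le⟩ le_rfl q2.1 (by exact_mod_cast q1.1.le)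
    (mem_univ _) (fun v h1 h2 => absurd h1 (not_le.2 h2)) 1 one_pos
  refine ⟨_, interior_mono (fill_mono (image_subset_range _ _)) hi, ?_⟩
  rw [dist_comm]
  refine hc ?_
  rw [Subtype.dist_eq, Real.dist_eq, abs_lt]
  constructor <;> linarith [q1.2, q2.2]

end HolA

open HolA CovrA in
theorem p_HOL (hCOVR : S_COVR) (hJOR : S_JOR) (hFILL : S_FILL) :
    S_HOL := by
  intro V T c₀ c₁ hV h
  obtain ⟨v1, -, v3, v4, -, -, -, v8, -⟩ := hJOR V hV
  have vb : Bornology.IsBounded V := v4.isBounded.subset subset_closure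
  obtain ⟨p1, -, p3, p4, p5, p6, p7⟩ := hCOVR V T c₀ c₁ v1 vb h
  refine ⟨fun hm => p6 v3 hm.1, fun hJ => ?_⟩
  replace p7 := p7 fun K _ hK => v8 K hK
  have h01 : T c₀ ⊆ T c₁ := h.mono c₀ c₁ le_rfl h.lt.le le_rfl
  have hsub : ∀ K ∈ T c₀, K ⊆ V := fun K hK => h.sub K (h01 hK)
  have hins : {K ∈ T c₀ | K ⊆ V} = T c₀ := sep_eq_self_iff_mem_true.2 hsub
  have hne : ∀ K ∈ T c₀, K.Nonempty := fun K hK => (h.tame.1 K (h01 hK)).2.1.nonempty
  have hpre : ∀ K ∈ T c₀, IsPreconnected (cluster (T c₀) K) := fun K hK =>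
    isPreconnected_cluster (fun A hA => (h.tame.1 A (h01 hA)).2.1.isConnected.isPreconnected) hK
      (hne K hK)
  have hcp : ∀ K ∈ T c₀, IsCompact (closure (cluster (T c₀) K)) := fun K hK =>
    (vb.subset (subset_closure.trans ((subset_fill _).trans (p7 K hK)))).isCompact_closure
  have hout : ∀ W, W ∈ outers (T c₀) V ↔
      ∃ K ∈ T c₀, W = interior (fill (closure (cluster (T c₀) K))) := fun W => by
    simp only [outers, hins, mem_ofPred_eq]
    exact ⟨fun ⟨K, h1, _, h2⟩ => ⟨K, h1, h2.trans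
        (inter_eq_right.2 (interior_subset.trans (p7 K h1)))⟩,
      fun ⟨K, h1, h2⟩ => ⟨K, h1, hsub K h1, h2.trans
        (inter_eq_right.2 (interior_subset.trans (p7 K h1))).symm⟩⟩
  have hcl : ∀ K ∈ T c₀, cluster (T c₀) K ⊆
      closure (interior (fill (closure (cluster (T c₀) K)))) := by
    rintro K hK z ⟨A, hA, hz⟩
    obtain ⟨γ, rfl, -, hq, -⟩ := h.hit A (Lk.mem hK hA)
    exact closure_mono (interior_mono (fill_mono ((sub_cl hA).trans subset_closure)))
      (loop_sub hq hz)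
  have key : ∀ W ∈ cleIn2 (T c₀) V, ∃ K ∈ T c₀, W = interior (fill (closure (cluster (T c₀) K))) ∧
      closure W = fill (closure (cluster (T c₀) K)) := by
    intro W hW
    obtain ⟨K, hK, e⟩ := (hout W).1 hW.1
    refine ⟨K, hK, e, Subset.antisymm (closure_minimal (e.subset.trans interior_subset)
      (hFILL _ (hcp K hK)).1.isClosed) ?_⟩
    rw [← (hJOR W (hJ W hW)).2.2.2.2.2.2.2.2.1]
    exact fill_mono (closure_minimal (e ▸ hcl K hK) isClosed_closure)
  have disj : ∀ W ∈ cleIn2 (T c₀) V, ∀ W' ∈ cleIn2 (T c₀) V, W ≠ W' →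
      Disjoint (closure W) (closure W') := by
    intro W hW W' hW' hn
    obtain ⟨K, hK, e1, e2⟩ := key W hW
    obtain ⟨K', hK', e1', e2'⟩ := key W' hW'
    have hd := (p5 W hW W' hW').resolve_left hn
    rcases p1 K hK K' hK' with e | e
    · exact absurd (by rw [e1, e1', e]) hn
    rcases nest hFILL (hcp K hK) (hcp K' hK') (hpre K hK).closure (hpre K' hK').closure
      ((hne K hK).mono ((sub_cl .refl).trans subset_closure)) e with f | f | f
    · rwa [e2, e2']
    · obtain ⟨x, hx⟩ := (hJOR W (hJ W hW)).2.2.1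
      exact (disjoint_left.1 hd hx (e1'.symm.subset (interior_mono f (e1.subset hx)))).elim
    · obtain ⟨x, hx⟩ := (hJOR W' (hJ W' hW')).2.2.1
      exact (disjoint_left.1 hd (e1.symm.subset (interior_mono f (e1'.subset hx))) hx).elim
  have hcV : ∀ W ∈ cleIn2 (T c₀) V, closure W ⊆ V := fun W hW => by
    obtain ⟨K, hK, -, e⟩ := key W hW
    exact e.subset.trans (p7 K hK)
  refine ⟨hJ, fun W hW => ⟨hcV W hW, ?_⟩, disj,
    fun s hs => (p3 s hs).2.subset fun W hW => ⟨hW.1.1, hW.2⟩, fun K hK => ?_,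
    fun W hW z hz => ⟨subset_closure (hcV W hW hz.1), ?_⟩⟩
  · obtain ⟨K, hK, -, e⟩ := key W hW
    exact ⟨K, hK, e⟩
  · obtain ⟨W, hW, e⟩ := p4 _ ((hout _).2 ⟨K, hK, rfl⟩)
    exact ⟨W, hW, (sub_cl .refl).trans ((hcl K hK).trans (closure_mono e))⟩
  · rintro ⟨W', hW', hz'⟩
    by_cases e : W = W'
    · subst e
      exact hz.2 ((hJOR W (hJ W hW)).1.interior_eq.symm.subset hz')
    · exact disjoint_left.1 (disj W hW W' hW' e) hz.1 (subset_closure hz')

end Pool.Agent.P.MP_d66c6d_pr
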