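import Pool.Agent.P.MP_d66c6d_pr.D.Iface
import Pool.Agent.P.MP_d66c6d_pr.E.Iface

/-!
Holes of the carpet, and the comparison of free paths with paths in the carpet.
-/

namespace Pool.Agent.P.MP_d66c6d_pr

open MeasureTheory ProbabilityTheory Set Metric Filter Topology
open scoped ENNReal

/-- The members of `T` that are not members of `T₀` inside one of the holes `𝒲`. -/
def rst (T₀ T 𝒲 : Set (Set ℂ)) : Set (Set ℂ) :=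
  {A ∈ T | ¬ (A ∈ T₀ ∧ ∃ W ∈ 𝒲, A ⊆ closure W)}

-- deps: COVR JOR FILL
-- imports: Pool.Agent.P.MP_d66c6d_pr.S.Covr
/-- The structure of the holes. -/
def S_HOL : Prop := ∀ (V : Set ℂ) (T : ℝ → Set (Set ℂ)) (c₀ c₁ : ℝ), IsJordan V → Lay V T c₀ c₁ →
  V ∉ cleIn2 (T c₀) V ∧ ((∀ W ∈ cleIn2 (T c₀) V, IsJordan W) → Hol V (T c₀))

-- deps: JOR FILL
-- imports: Pool.Agent.P.MP_d66c6d_pr.S.Covr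
/-- What is attached to a hole. -/
def S_ATT : Prop := ∀ (V : Set ℂ) (T : ℝ → Set (Set ℂ)) (c₀ c₁ : ℝ), IsJordan V → Lay V T c₀ c₁ →
  Hol V (T c₀) → ∀ W ∈ cleIn2 (T c₀) V,
  (∀ K ∈ T c₀, (K ∩ closure W).Nonempty → K ⊆ closure W) ∧
  (∀ K ∈ T c₀, K ⊆ closure W → ∀ w > (0 : ℝ), ∃ 𝒜 : Set (Set ℂ), 𝒜.Finite ∧ ⋃₀ 𝒜 = K ∧
    ∀ P ∈ 𝒜, IsCompact P ∧ IsPreconnected P ∧ diam P ≤ w ∧ (P ∩ W).Nonempty) ∧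
  (∀ A ∈ T c₁, (A ∩ closure W).Nonempty →
    (A ∩ W).Nonempty ∨ ∃ K ∈ T c₀, K ⊆ closure W ∧ (A ∩ K).Nonempty) ∧
  ∀ w > (0 : ℝ), ∃ c' ∈ Ioc c₀ c₁, ∀ A ∈ T c', A ∉ T c₀ → (A ∩ closure W).Nonempty →
    cluster {B ∈ T c' | Disjoint B (closure W)} A ⊆ thickening w (closure W)

-- deps:
/-- A large core of a Jordan domain, with short links to the boundary. -/
def S_RAD : Prop := ∀ (W Z : Set ℂ) (ε : ℝ), IsJordan W → 0 < ε → Z.Finite → Z ⊆ W →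
  ∃ F : Set ℂ, IsCompact F ∧ IsPreconnected F ∧ Z ⊆ F ∧ F ⊆ W ∧ ∀ y ∈ W \ F, ∃ γ : Br,
    γ 0 = y ∧ γ 1 ∈ frontier W ∧ range γ ⊆ closure W ∩ ball y ε ∧ Disjoint (range γ) F

-- deps: ATT JOR
-- imports: Pool.Agent.P.MP_d66c6d_pr.S.Covr
/-- The big holes, and the small clusters of the other loops. -/
def S_OBA : Prop := ∀ (V : Set ℂ) (T : ℝ → Set (Set ℂ)) (c₀ c₁ : ℝ), IsJordan V → Lay V T c₀ c₁ →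
  Hol V (T c₀) → ∀ ε > (0 : ℝ), ∃ c' ∈ Ioc c₀ c₁, ∃ 𝒲 ⊆ cleIn2 (T c₀) V, ∃ d > (0 : ℝ),
    𝒲.Finite ∧ (∀ W ∈ cleIn2 (T c₀) V, W ∉ 𝒲 → diam W < ε) ∧
    (∀ W ∈ 𝒲, ∀ W' ∈ 𝒲, W ≠ W' →
      Disjoint (thickening d (closure W)) (thickening d (closure W'))) ∧
    ∀ c ∈ Icc c₀ c', ∀ A ∈ rst (T c₀) (T c) 𝒲,
      (∀ x ∈ cluster (rst (T c₀) (T c) 𝒲) A, ∀ y ∈ cluster (rst (T c₀) (T c) 𝒲) A,
        dist x y ≤ ε) ∧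
      ∀ W ∈ 𝒲, (A ∩ closure W).Nonempty →
        cluster (rst (T c₀) (T c) 𝒲) A ⊆ thickening d (closure W)

-- deps: OBA ATT RAD FRB JOR
-- imports: Pool.Agent.P.MP_d66c6d_pr.S.Covr
/-- The system of obstacles at a level slightly above `c₀`. -/
def S_OBS : Prop := ∀ (V : Set ℂ) (T : ℝ → Set (Set ℂ)) (c₀ c₁ : ℝ), IsJordan V → Lay V T c₀ c₁ →
  Hol V (T c₀) → ∀ ε > (0 : ℝ), ∃ c' ∈ Ioc c₀ c₁, ∀ c ∈ Icc c₀ c', ∀ ξ > (0 : ℝ),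
    ∃ ξ' > (0 : ℝ), ∃ (ι : Type) (_ : Finite ι) (F : ι → Set ℂ) (𝒜 : ι → Set (Set ℂ)),
      Obs ε F 𝒜 ∧ TT ξ (T c) ⊆ ⋃ i, ob F 𝒜 i ∧ (∀ i, Disjoint (carp (T c₀) V) (F i)) ∧
      (∀ y, Out (T c) V ξ' y → ∀ i, y ∉ fill (ob F 𝒜 i)) ∧
      ∀ y ∈ V, Out (T c) V ξ' y → ∃ γ : Br, γ 0 = y ∧ γ 1 ∈ carp (T c₀) V ∧
        range γ ⊆ ball y ε ∧ ∀ i, Disjoint (range γ) (F i)

-- deps: OBS JAN2
/-- Points with an arm are close to the carpet and are joined along paths of the carpet. -/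
def S_LNK : Prop := ∀ (V : Set ℂ) (T : ℝ → Set (Set ℂ)) (c₀ c₁ : ℝ), IsJordan V → Lay V T c₀ c₁ →
  Hol V (T c₀) → ∀ ε > (0 : ℝ), ∃ c' ∈ Ioc c₀ c₁, ∀ c ∈ Icc c₀ c', ∀ ξ > (0 : ℝ),
    ∃ ξ' ∈ Ioc 0 ξ, ∀ y ∈ V, Out (T c) V ξ' y → ∀ y' ∈ V, Out (T c) V ξ' y' →
      ∃ x ∈ carp (T c₀) V, ∃ x' ∈ carp (T c₀) V, dist y x < ε ∧ dist y' x' < ε ∧
        ∀ σ : Br, σ 0 = x → σ 1 = x' → range σ ⊆ carp (T c₀) V → ∃ γ : Br, γ 0 = y ∧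
          γ 1 = y' ∧ range γ ⊆ Free ξ (T c) ∩ thickening (4 * ε) (range σ)

-- deps: LNK COV
/-- The upper bound for the global connection cost. -/
def S_APRU : Prop := ∀ (V : Set ℂ) (T : ℝ → Set (Set ℂ)) (c₀ c₁ : ℝ) (a : ℝ → ℝ) (e : ℕ → ℝ)
  (a₀ : ℝ), IsJordan V → ball 0 3 ⊆ V → Lay V T c₀ c₁ → Hol V (T c₀) →
  XU (carp (T c₀) V) a e → (∀ j, 0 < e j) → Tendsto e atTop (𝓝 0) → 0 < a₀ →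
  (∀ᶠ j in atTop, a₀ ≤ a (e j)) → ∃ C : ℝ, ∀ᶠ j in atTop, ∃ c' > c₀, ∀ c ∈ Icc c₀ c',
    ZleA (T c) Vᶜ 0 1 (e j) (C * a (e j))

-- deps: LNK COV DMON
/-- The lower bound for the global crossing cost. -/
def S_APRL : Prop := ∀ (V : Set ℂ) (T : ℝ → Set (Set ℂ)) (c₀ c₁ : ℝ) (a : ℝ → ℝ) (e : ℕ → ℝ),
  IsJordan V → ball 0 3 ⊆ V → Lay V T c₀ c₁ → Hol V (T c₀) → XU (carp (T c₀) V) a e →
  XL (carp (T c₀) V) a e → (∀ j, 0 < e j) → Tendsto e atTop (𝓝 0) →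
  ∃ τ > (0 : ℝ), ∀ᶠ j in atTop, ¬ NleA (T c₀) Vᶜ (e j) (τ * a (e j))

-- deps: BUMP
/-- Three facts on continua. -/
def S_CONT : Prop :=
  (∀ (Λ : Set ℂ) (𝒞 : Set (Set ℂ)), IsCompact Λ → IsPreconnected Λ → Λ.Nontrivial → 𝒞.Finite →
    (∀ C ∈ 𝒞, IsClosed C) → Λ ⊆ ⋃₀ 𝒞 →
    ∃ C ∈ 𝒞, ∃ Λ' ⊆ Λ ∩ C, IsPreconnected Λ' ∧ Λ'.Nontrivial) ∧
  (∀ (A : ℕ → Set ℂ) (M : Set ℂ), IsCompact M →
    (∀ n, IsCompact (A n) ∧ IsPreconnected (A n) ∧ (A n).Nonempty ∧ A n ⊆ M) →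
    ∃ (Λ : Set ℂ) (φ : ℕ → ℕ), IsCompact Λ ∧ IsPreconnected Λ ∧ StrictMono φ ∧
      ∀ η > (0 : ℝ), ∀ᶠ n in atTop,
        A (φ n) ⊆ thickening η Λ ∧ Λ ⊆ thickening η (A (φ n))) ∧
  ∃ D : Set ℂ, D.Countable ∧ ∀ Λ ⊆ sphere (0 : ℂ) 1, IsPreconnected Λ → Λ.Nontrivial →
    (Λ ∩ D).Nonempty

-- deps: LNK CONT JOR DMON
-- imports: Pool.Agent.P.MP_d66c6d_pr.S.Surr
/-- Small loops around countably many points exclude hugging crossings. -/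
def S_BBG : Prop := ∀ (V : Set ℂ) (T : ℝ → Set (Set ℂ)) (c₀ c₁ : ℝ), IsJordan V →
  ball 0 3 ⊆ V → Lay V T c₀ c₁ → Hol V (T c₀) → ∃ D : Set ℂ, D.Countable ∧ D ⊆ closedBall 0 2 ∧
    ∀ T' : Set (Set ℂ), T c₀ ⊆ T' →
      (∀ K ∈ T', 1 / 25 ≤ diam K → (K ∩ closedBall 0 2).Nonempty → K ∈ T c₀) →
      (∀ x ∈ D, ∀ r > (0 : ℝ), ∃ K ∈ T', ∃ s > (0 : ℝ), ball x s ⊆ fill K ∧ K ⊆ ball x r) →
      ∃ δ > (0 : ℝ), ¬ BBA T' Vᶜ δ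

end Pool.Agent.P.MP_d66c6d_pr
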