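import Pool.Agent.P.MP_d66c6d_pr.H.Iface
import Pool.Agent.P.MP_d66c6d_pr.D.Iface

/-! Step LNK of the carpet project. -/

namespace Pool.Agent.P.MP_d66c6d_pr

open MeasureTheory ProbabilityTheory Set Metric Filter Topology
open scoped ENNReal

theorem p_LNK (hOBS : S_OBS) (hJAN2 : S_JAN2) :
    S_LNK := by
  intro V T c₀ c₁ hV hL hH ε hε
  obtain ⟨c', hc', h⟩ := hOBS V T c₀ c₁ hV hL hH ε hε
  refine ⟨c', hc', fun c hc ξ hξ => ?_⟩
  obtain ⟨ξ', hξ', ι, _, F, 𝒜, hO, hT, hF, hout, hlk⟩ := h c hc ξ hξ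
  have hm : ∀ y, Out (T c) V (min ξ' ξ) y → Out (T c) V ξ' y := fun y ⟨w, h1, h2⟩ =>
    ⟨w, h1, h2.mono (Free_mono (min_le_left _ _) Subset.rfl)⟩
  refine ⟨min ξ' ξ, ⟨lt_min hξ' hξ, min_le_right _ _⟩, fun y hy ho y' hy' ho' => ?_⟩
  obtain ⟨α, a0, a1, a2, a3⟩ := hlk y hy (hm y ho)
  obtain ⟨β, b0, b1, b2, b3⟩ := hlk y' hy' (hm y' ho')
  have da := mem_ball'.1 (a2 ⟨1, rfl⟩)
  have db := mem_ball'.1 (b2 ⟨1, rfl⟩)
  refine ⟨α 1, a1, β 1, b1, da, db, fun σ s0 s1 s2 => ?_⟩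
  obtain ⟨β', e0, e1, e2⟩ := exists_br_symm β
  obtain ⟨γ₁, f0, f1, f2⟩ := exists_br_trans s0.symm
  obtain ⟨γ₂, g0, g1, g2⟩ := exists_br_trans (f1.trans (s1.trans e0.symm))
  rw [f2, e2] at g2
  rw [f0, a0] at g0
  rw [e1, b0] at g1
  have key : ∀ (u : ℂ) (s : unitInterval), dist u (σ s) < ε →
      ball u ε ⊆ thickening (2 * ε) (range σ) := fun u s hu v hv =>
    mem_thickening_iff.2 ⟨σ s, ⟨s, rfl⟩, by linarith [dist_triangle v u (σ s), mem_ball.1 hv]⟩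
  have hth : range γ₂ ⊆ thickening (2 * ε) (range σ) := g2.subset.trans (union_subset
    (union_subset (a2.trans (key y 0 (s0 ▸ da))) (self_subset_thickening (by positivity) _))
    (b2.trans (key y' 1 (s1 ▸ db))))
  obtain ⟨γ, k0, k1, k2, k3⟩ := hJAN2 ι ε F 𝒜 γ₂ hε hO
    (fun i => g2 ▸ disjoint_union_left.2 ⟨disjoint_union_left.2 ⟨a3 i, (hF i).mono_left s2⟩, b3 i⟩)
    fun i => ⟨g0 ▸ hout y (hm y ho) i, g1 ▸ hout y' (hm y' ho') i⟩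
  refine ⟨γ, k0.trans g0, k1.trans g1, subset_inter ?_ (k2.trans
    ((thickening_subset_of_subset _ hth).trans ((thickening_thickening_subset _ _ _).trans
      (thickening_mono (by linarith) _))))⟩
  rw [(hL.tame.mono (hL.mono c c₁ hc.1 (hc.2.trans hc'.2) le_rfl)).free hξ]
  intro z hz h'
  obtain ⟨i, hi⟩ := mem_iUnion.1 (hT h')
  exact disjoint_left.1 (k3 i) hz hi

end Pool.Agent.P.MP_d66c6d_pr
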