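import Pool.Agent.P.MP_d66c6d_pr.H.Iface
import Pool.Agent.P.MP_d66c6d_pr.A.Iface
import Pool.Agent.P.MP_d66c6d_pr.S.Covr

/-! Step OBA of the carpet project. -/

namespace Pool.Agent.P.MP_d66c6d_pr

open MeasureTheory ProbabilityTheory Set Metric Filter Topology
open scoped ENNReal

namespace ObaA

theorem ev_le {a b : ℝ} (h : a < b) : ∀ᶠ x in 𝓝[>] a, x ≤ b :=
  (eventually_le_nhds h).filter_mono nhdsWithin_le_nhds

theorem sep {𝒲 : Set (Set ℂ)} (hf : 𝒲.Finite) (hc : ∀ W ∈ 𝒲, IsCompact (closure W))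
    (hd : ∀ W ∈ 𝒲, ∀ W' ∈ 𝒲, W ≠ W' → Disjoint (closure W) (closure W')) :
    ∃ d > (0 : ℝ), ∀ W ∈ 𝒲, ∀ W' ∈ 𝒲, W ≠ W' →
      Disjoint (thickening d (closure W)) (thickening d (closure W')) := by
  have h : ∀ᶠ d in 𝓝[>] (0 : ℝ), ∀ W ∈ 𝒲, ∀ W' ∈ 𝒲, W ≠ W' →
      Disjoint (thickening d (closure W)) (thickening d (closure W')) := by
    refine (eventually_all_finite hf).2 fun W hW => (eventually_all_finite hf).2 fun W' hW' => ?_
    by_cases hne : W = W'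
    · exact Eventually.of_forall fun _ h => absurd hne h
    obtain ⟨δ, hδ, h⟩ := (hd W hW W' hW' hne).exists_thickenings (hc W hW) isClosed_closure
    filter_upwards [ev_le hδ] with d hdδ _
    exact h.mono (thickening_mono hdδ _) (thickening_mono hdδ _)
  obtain ⟨d, h1, h2⟩ := (h.and self_mem_nhdsWithin).exists
  exact ⟨d, h2, h1⟩

theorem chain {R S T₀ : Set (Set ℂ)} {C U A : Set ℂ} (hRS : R ⊆ S)
    (h0 : ∀ B ∈ R, (B ∩ C).Nonempty → B ∉ T₀)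
    (hU : ∀ A ∈ S, A ∉ T₀ → (A ∩ C).Nonempty → cluster {B ∈ S | Disjoint B C} A ⊆ U)
    (hA : A ∈ R) (hm : (A ∩ C).Nonempty) : cluster R A ⊆ U := by
  rintro x ⟨B, hB, hx⟩
  have key : ∃ A' ∈ R, (A' ∩ C).Nonempty ∧ Relation.ReflTransGen
      (fun P Q : Set ℂ => Q ∈ {B ∈ S | Disjoint B C} ∧ (P ∩ Q).Nonempty) A' B := by
    clear hx
    have hB' : Relation.ReflTransGen (fun P Q : Set ℂ => Q ∈ R ∧ (P ∩ Q).Nonempty) A B := hB
    clear hB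
    induction hB' with
    | refl => exact ⟨A, hA, hm, Relation.ReflTransGen.refl⟩
    | @tail P Q _ hPQ ih =>
      by_cases hQ : (Q ∩ C).Nonempty
      · exact ⟨Q, hPQ.1, hQ, Relation.ReflTransGen.refl⟩
      · obtain ⟨A', h1, h2, h3⟩ := ih
        exact ⟨A', h1, h2, h3.tail ⟨⟨hRS hPQ.1,
          disjoint_iff_inter_eq_empty.2 (not_nonempty_iff_eq_empty.1 hQ)⟩, hPQ.2⟩⟩
  obtain ⟨A', h1, h2, h3⟩ := key
  exact hU A' (hRS h1) (h0 A' h1 h2) h2 ⟨B, h3, hx⟩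

end ObaA

theorem p_OBA (hATT : S_ATT) (hJOR : S_JOR) :
    S_OBA := by
  intro V T c₀ c₁ hV hL hH ε hε
  obtain ⟨η, hη, hsub⟩ := hL.subc (ε / 2) (half_pos hε)
  have hcpt : ∀ W ∈ cleIn2 (T c₀) V, IsCompact (closure W) := fun W hW =>
    (hJOR W (hH.jor W hW)).2.2.2.1
  set 𝒲 : Set (Set ℂ) := {W ∈ cleIn2 (T c₀) V | min η ε ≤ diam W} with h𝒲
  have hfin : 𝒲.Finite := hH.fin _ (lt_min hη hε)
  obtain ⟨d, hd, hsep⟩ := ObaA.sep hfin (fun W hW => hcpt W hW.1)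
    (fun W hW W' hW' h => hH.disj W hW.1 W' hW'.1 h)
  obtain ⟨cr, hcr, hrc⟩ := hL.rc η hη
  have hev : ∀ᶠ c in 𝓝[>] c₀, ∀ W ∈ 𝒲, ∃ c'' ∈ Icc c c₁, ∀ A ∈ T c'', A ∉ T c₀ →
      (A ∩ closure W).Nonempty →
      cluster {B ∈ T c'' | Disjoint B (closure W)} A ⊆ thickening d (closure W) := by
    refine (eventually_all_finite hfin).2 fun W hW => ?_
    obtain ⟨c'', h1, h2⟩ := (hATT V T c₀ c₁ hV hL hH W hW.1).2.2.2 d hd
    filter_upwards [ObaA.ev_le h1.1] with c hc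
    exact ⟨c'', ⟨hc, h1.2⟩, h2⟩
  obtain ⟨c', ⟨hc1, hc2⟩, hc3⟩ := ((hev.and (ObaA.ev_le hcr.1)).and self_mem_nhdsWithin).exists
  refine ⟨c', ⟨hc3, hc2.trans hcr.2⟩, 𝒲, fun W hW => hW.1, d, hd, hfin, fun W hW hn => ?_, hsep,
    fun c hc A hA => ⟨?_, fun W hW hm => ?_⟩⟩
  · by_contra h
    exact hn ⟨hW, (min_le_right _ _).trans (not_lt.1 h)⟩
  · have hsm : rst (T c₀) (T c) 𝒲 ⊆ {K' ∈ T c₁ | diam K' < η} := by
      intro K hK
      refine ⟨hL.mono c c₁ hc.1 (hc.2.trans (hc2.trans hcr.2)) le_rfl hK.1, ?_⟩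
      by_contra h
      have h0 : K ∈ T c₀ :=
        hrc K (hL.mono c cr hc.1 (hc.2.trans hc2) hcr.2 hK.1) (not_lt.1 h)
      obtain ⟨W, hW, hKW⟩ := hH.mem K h0
      have h1 : diam K ≤ diam W := by
        rw [← diam_closure W]
        exact diam_mono hKW (hcpt W hW).isBounded
      exact hK.2 ⟨h0, W, ⟨hW, (min_le_left _ _).trans ((not_lt.1 h).trans h1)⟩, hKW⟩
    have hcl : cluster (rst (T c₀) (T c) 𝒲) A ⊆ cluster {K' ∈ T c₁ | diam K' < η} A :=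
      CovrA.cl_sub fun B hB _ => hsm hB
    obtain ⟨z, hz⟩ := (hL.tame.1 A (hsm hA).1).2.1.nonempty
    intro x hx y hy
    have h1 := hsub A (hsm hA).1 (hsm hA).2 z hz x (hcl hx)
    have h2 := hsub A (hsm hA).1 (hsm hA).2 z hz y (hcl hy)
    have h3 := dist_triangle_left x y z
    linarith
  · obtain ⟨c'', h1, h2⟩ := hc1 W hW
    refine ObaA.chain (S := T c'') (T₀ := T c₀)
      (fun K hK => hL.mono c c'' hc.1 (hc.2.trans h1.1) h1.2 hK.1) (fun B hB hm' h0 => ?_) h2 hA hm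
    exact hB.2 ⟨h0, W, hW, (hATT V T c₀ c₁ hV hL hH W hW.1).1 B h0 hm'⟩

end Pool.Agent.P.MP_d66c6d_pr
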