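import Pool.Agent.P.MP_d66c6d_pr.H.Iface
import Pool.Agent.P.MP_d66c6d_pr.E.Iface
import Pool.Agent.P.MP_d66c6d_pr.A.Iface
import Pool.Agent.P.MP_d66c6d_pr.S.Covr

/-! Step OBS of the carpet project. -/

namespace Pool.Agent.P.MP_d66c6d_pr

open MeasureTheory ProbabilityTheory Set Metric Filter Topology
open scoped ENNReal

namespace ObsA

theorem exists_min {ι : Type} [Finite ι] (f : ι → ℝ) (hf : ∀ i, 0 < f i) {a : ℝ} (ha : 0 < a) :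
    ∃ m > (0 : ℝ), m ≤ a ∧ ∀ i, m ≤ f i := by
  obtain ⟨o, ho⟩ := Finite.exists_min (fun o : Option ι => o.elim a f)
  refine ⟨o.elim a f, ?_, ho none, fun i => ho (some i)⟩
  cases o with
  | none => exact ha
  | some i => exact hf i

theorem star {F : Set ℂ} {𝒬 : Set (Set ℂ)} (hF : IsPreconnected F)
    (h : ∀ P ∈ 𝒬, IsPreconnected P ∧ (P ∩ F).Nonempty) : IsPreconnected (F ∪ ⋃₀ 𝒬) := by
  rcases 𝒬.eq_empty_or_nonempty with rfl | ⟨P₀, hP₀⟩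
  · simpa using hF
  obtain ⟨x, -, hx⟩ := (h P₀ hP₀).2
  refine isPreconnected_of_forall x fun y hy => ?_
  rcases hy with hy | ⟨P, hP, hy⟩
  · exact ⟨F, subset_union_left, hx, hy, hF⟩
  · obtain ⟨u, hu1, hu2⟩ := (h P hP).2
    exact ⟨F ∪ P, union_subset_union_right _ (subset_sUnion_of_mem hP), Or.inl hx, Or.inr hy,
      hF.union u hu2 hu1 (h P hP).1⟩

theorem exit {W : Set ℂ} (hW : IsOpen W) (γ : Br) (h0 : γ 0 ∈ W) (h1 : γ 1 ∉ W) :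
    ∃ γ' : Br, γ' 0 = γ 0 ∧ γ' 1 ∈ frontier W ∧ range γ' ⊆ closure W ∩ range γ := by
  have hc : IsClosed {t : unitInterval | γ t ∉ W} :=
    hW.isClosed_compl.preimage γ.continuous
  obtain ⟨t, ht, hmin⟩ := hc.isCompact.exists_isLeast ⟨1, h1⟩
  have h0t : (0 : unitInterval) ≠ t := by
    rintro rfl
    exact ht h0
  have hcl : γ '' Icc 0 t ⊆ closure W := by
    rw [← closure_Ico h0t]
    refine (image_closure_subset_closure_image γ.continuous).trans (closure_mono ?_)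
    rintro _ ⟨s, hs, rfl⟩
    by_contra hn
    exact absurd (hmin hn) (not_le.2 hs.2)
  obtain ⟨γ', a0, a1, a2⟩ := exists_br_piece γ (show (0 : unitInterval) ≤ t from t.2.1)
  refine ⟨γ', a0, ?_, ?_⟩
  · rw [hW.frontier_eq, a1]
    exact ⟨hcl ⟨t, ⟨t.2.1, le_rfl⟩, rfl⟩, ht⟩
  · rw [a2]
    exact subset_inter hcl (image_subset_range _ _)

/-- The obstacle of one big hole. -/
theorem hole (hATT : S_ATT) (hRAD : S_RAD) (hFRB : S_FRB) (hJOR : S_JOR) {V : Set ℂ}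
    {T : ℝ → Set (Set ℂ)} {c₀ c₁ : ℝ} (hV : IsJordan V) (hL : Lay V T c₀ c₁) (hH : Hol V (T c₀))
    {ε ξ c : ℝ} (hε : 0 < ε) (hξ : 0 < ξ) (hc : c ∈ Icc c₀ c₁) {𝒬 : Set (Set ℂ)}
    (hfin : 𝒬.Finite)
    (hQ : ∀ Q ∈ 𝒬, IsCompact Q ∧ IsPreconnected Q ∧ diam Q ≤ ε / 2 ∧ Q ⊆ TT ξ (T c) ∧
      ∀ x ∈ Q, ∃ A ∈ T c, x ∈ A ∧ A ⊆ Q)
    {W : Set ℂ} (hW : W ∈ cleIn2 (T c₀) V) :
    ∃ (F : Set ℂ) (𝒜 : Set (Set ℂ)) (η : ℝ), 0 < η ∧ IsCompact F ∧ F ⊆ W ∧ 𝒜.Finite ∧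
      (∀ P ∈ 𝒜, IsCompact P ∧ diam P ≤ ε) ∧ (∀ 𝒟 ⊆ 𝒜, IsPreconnected (F ∪ ⋃₀ 𝒟)) ∧
      (∀ x ∈ F ∪ ⋃₀ 𝒜, x ∈ closure W ∨ ∃ Q ∈ 𝒬, (Q ∩ closure W).Nonempty ∧ x ∈ Q) ∧
      (∀ K ∈ T c₀, K ⊆ closure W → ξ ≤ diam K → K ⊆ F ∪ ⋃₀ 𝒜) ∧
      (∀ Q ∈ 𝒬, (Q ∩ closure W).Nonempty → Q ⊆ F ∪ ⋃₀ 𝒜) ∧
      (∀ C : Set ℂ, IsPreconnected C → C ⊆ Free η (T c) → (∃ w ∈ C, w ∉ V) →
        Disjoint C (F ∪ ⋃₀ 𝒜)) ∧
      ∀ y ∈ W \ F, ∃ γ : Br, γ 0 = y ∧ γ 1 ∈ frontier W ∧ range γ ⊆ closure W ∩ ball y ε ∧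
        Disjoint (range γ) F := by
  classical
  obtain ⟨-, att2, att3, -⟩ := hATT V T c₀ c₁ hV hL hH W hW
  have h01 : T c₀ ⊆ T c₁ := hL.mono _ _ le_rfl hL.lt.le le_rfl
  have h0c : T c₀ ⊆ T c := hL.mono _ _ le_rfl hc.1 hc.2
  have hc1 : T c ⊆ T c₁ := hL.mono _ _ hc.1 hc.2 le_rfl
  have hJ := hJOR V hV
  have hJW := hJOR W (hH.jor W hW)
  have part : ∀ Q : 𝒬, ∃ s > (0 : ℝ), ((Q : Set ℂ) ∩ closure W).Nonempty →
      ((Q : Set ℂ) ∩ W).Nonempty ∨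
        ∃ K ∈ T c₀, K ⊆ closure W ∧ s ≤ diam K ∧ ((Q : Set ℂ) ∩ K).Nonempty := by
    intro Q
    by_cases hne : ((Q : Set ℂ) ∩ closure W).Nonempty
    · obtain ⟨x, hx1, hx2⟩ := hne
      obtain ⟨A, hA, hxA, hAQ⟩ := (hQ Q Q.2).2.2.2.2 x hx1
      rcases att3 A (hc1 hA) ⟨x, hxA, hx2⟩ with h | ⟨K, hK, hKW, h⟩
      · exact ⟨1, one_pos, fun _ => Or.inl (h.mono (inter_subset_inter_left _ hAQ))⟩
      · exact ⟨diam K, (hL.tame.1 K (h01 hK)).2.2, fun _ =>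
          Or.inr ⟨K, hK, hKW, le_rfl, h.mono (inter_subset_inter_left _ hAQ)⟩⟩
    · exact ⟨1, one_pos, fun h => absurd h hne⟩
  choose s hs part using part
  have := hfin.to_subtype
  obtain ⟨m, hm, hmξ, hms⟩ := exists_min s hs hξ
  set 𝒦 : Set (Set ℂ) := {K | K ∈ T c₀ ∧ K ⊆ closure W ∧ m ≤ diam K} with h𝒦
  have hKfin : 𝒦.Finite := (hL.tame.2 m hm).subset fun K hK => ⟨h01 hK.1, hK.2.2⟩
  have cut : ∀ K : 𝒦, ∃ 𝒜 : Set (Set ℂ), 𝒜.Finite ∧ ⋃₀ 𝒜 = K ∧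
      ∀ P ∈ 𝒜, IsCompact P ∧ IsPreconnected P ∧ diam P ≤ ε / 2 ∧ (P ∩ W).Nonempty :=
    fun K => att2 K K.2.1 K.2.2.1 _ (half_pos hε)
  choose pc pfin pun pP using cut
  have := hKfin.to_subtype
  set 𝒟 : Set (Set ℂ) := ⋃ K, pc K with h𝒟
  have hPfin : 𝒟.Finite := finite_iUnion pfin
  have hP : ∀ P ∈ 𝒟, (IsCompact P ∧ IsPreconnected P ∧ diam P ≤ ε / 2 ∧ (P ∩ W).Nonempty) ∧
      P ⊆ closure W ∧ P ⊆ TT m (T c) := by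
    intro P hP
    obtain ⟨K, hK⟩ := mem_iUnion.1 hP
    have hPK : P ⊆ K := (subset_sUnion_of_mem hK).trans (pun K).subset
    exact ⟨pP K P hK, hPK.trans K.2.2.1, fun x hx =>
      mem_TT.2 ⟨K, h0c K.2.1, K.2.2.2, hPK hx⟩⟩
  have hPK : ∀ K ∈ 𝒦, ∀ x ∈ K, ∃ P ∈ 𝒟, x ∈ P := by
    intro K hK x hx
    obtain ⟨P, h1, h2⟩ := (pun ⟨K, hK⟩).symm.subset hx
    exact ⟨P, mem_iUnion.2 ⟨_, h1⟩, h2⟩
  set 𝒜 : Set (Set ℂ) := 𝒟 ∪ {Q ∈ 𝒬 | (Q ∩ W).Nonempty} ∪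
    (fun p : Set ℂ × Set ℂ => p.1 ∪ p.2) '' {p ∈ 𝒬 ×ˢ 𝒟 | (p.1 ∩ p.2).Nonempty} with h𝒜
  have hAfin : 𝒜.Finite := (hPfin.union (hfin.subset (sep_subset _ _))).union
    (((hfin.prod hPfin).subset (sep_subset _ _)).image _)
  have hA : ∀ B ∈ 𝒜, (IsCompact B ∧ diam B ≤ ε) ∧ IsPreconnected B ∧ (B ∩ W).Nonempty ∧
      B ⊆ TT m (T c) ∧
      ∀ x ∈ B, x ∈ closure W ∨ ∃ Q ∈ 𝒬, (Q ∩ closure W).Nonempty ∧ x ∈ Q := by
    rintro B ((hB | hB) | ⟨⟨Q, P⟩, ⟨⟨h1, h2⟩, h3⟩, rfl⟩)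
    · obtain ⟨⟨a1, a2, a3, a4⟩, a5, a6⟩ := hP B hB
      exact ⟨⟨a1, by linarith⟩, a2, a4, a6, fun x hx => Or.inl (a5 hx)⟩
    · obtain ⟨a1, a2, a3, a4, -⟩ := hQ B hB.1
      exact ⟨⟨a1, by linarith⟩, a2, hB.2, a4.trans (TT_mono hmξ Subset.rfl), fun x hx =>
        Or.inr ⟨B, hB.1, hB.2.mono (inter_subset_inter_right _ subset_closure), hx⟩⟩
    · obtain ⟨⟨a1, a2, a3, a4⟩, a5, a6⟩ := hP P h2
      obtain ⟨b1, b2, b3, b4, -⟩ := hQ Q h1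
      have hd := diam_union' h3
      obtain ⟨u, hu1, hu2⟩ := h3
      refine ⟨⟨b1.union a1, by dsimp only at hd ⊢; linarith⟩, b2.union u hu1 hu2 a2,
        a4.mono (inter_subset_inter_left _ subset_union_right),
        union_subset (b4.trans (TT_mono hmξ Subset.rfl)) a6, ?_⟩
      rintro x (hx | hx)
      · exact Or.inr ⟨Q, h1, ⟨u, hu1, a5 hu2⟩, hx⟩
      · exact Or.inl (a5 hx)
  have pt : ∀ B : 𝒜, ∃ z, z ∈ (B : Set ℂ) ∩ W := fun B => (hA B B.2).2.2.1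
  choose z hz using pt
  have := hAfin.to_subtype
  obtain ⟨F, f1, f2, f3, f4, f5⟩ := hRAD W (range z) ε (hH.jor W hW) hε (finite_range z)
    (range_subset_iff.2 fun B => (hz B).2)
  obtain ⟨hWV, K₀, hK₀, hWK⟩ := hH.cl W hW
  obtain ⟨η, hη, hFη⟩ := (hFRB V T c₀ c₁ hJ.1 (hJ.2.2.2.1.isBounded.subset subset_closure) hL).1
    K₀ hK₀ F (by rw [← hWK, hJW.2.2.2.2.1]; exact f4) f1
  refine ⟨F, 𝒜, min m η, lt_min hm hη, f1, f4, hAfin, fun P hP => (hA P hP).1, fun 𝒟' h' => ?_,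
    ?_, ?_, ?_, ?_, f5⟩
  · exact star f2 fun P hP => ⟨(hA P (h' hP)).2.1, z ⟨P, h' hP⟩, (hz ⟨P, h' hP⟩).1,
      f3 ⟨_, rfl⟩⟩
  · rintro x (hx | ⟨B, hB, hx⟩)
    · exact Or.inl (subset_closure (f4 hx))
    · exact (hA B hB).2.2.2.2 x hx
  · intro K hK hKW hd x hx
    obtain ⟨P, h1, h2⟩ := hPK K ⟨hK, hKW, hmξ.trans hd⟩ x hx
    exact Or.inr ⟨P, Or.inl (Or.inl h1), h2⟩
  · intro Q hQ' hne
    rcases part ⟨Q, hQ'⟩ hne with h | ⟨K, hK, hKW, hd, u, hu1, hu2⟩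
    · exact fun x hx => Or.inr ⟨Q, Or.inl (Or.inr ⟨hQ', h⟩), hx⟩
    · obtain ⟨P, h1, h2⟩ := hPK K ⟨hK, hKW, (hms _).trans hd⟩ u hu2
      exact fun x hx => Or.inr ⟨Q ∪ P, Or.inr ⟨(Q, P), ⟨⟨hQ', h1⟩, u, hu1, h2⟩, rfl⟩, Or.inl hx⟩
  · rintro C hC hCF ⟨w, hwC, hwV⟩
    refine Set.disjoint_left.2 ?_
    rintro u hu (hu' | ⟨B, hB, hu'⟩)
    · have hd : Disjoint C (TT η (T c₀) ∩ cluster (T c₀) K₀) := Set.disjoint_left.2 fun x hx hx' =>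
        hCF hx (subset_closure (TT_mono (min_le_right _ _) h0c hx'.1))
      have hXV : TT η (T c₀) ∩ cluster (T c₀) K₀ ⊆ V := fun x hx => by
        obtain ⟨K, hK, -, hxK⟩ := mem_TT.1 hx.1
        exact hL.sub K (h01 hK) hxK
      exact hwV (hJ.2.2.2.2.2.2.2.1 _ hXV
        (fill_conn hC hd hu hwC (interior_subset (hFη hu'))))
    · exact hCF hu (subset_closure
        (TT_mono (min_le_left _ _) Subset.rfl ((hA B hB).2.2.2.1 hu')))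

end ObsA

open ObsA in
theorem p_OBS (hOBA : S_OBA) (hATT : S_ATT) (hRAD : S_RAD) (hFRB : S_FRB) (hJOR : S_JOR) :
    S_OBS := by
  classical
  intro V T c₀ c₁ hV hL hH ε hε
  obtain ⟨c', hc', 𝒲, hWs, d, hd, hWfin, hsmall, hthick, hcl⟩ :=
    hOBA V T c₀ c₁ hV hL hH (ε / 2) (half_pos hε)
  refine ⟨c', hc', fun c hc ξ hξ => ?_⟩
  have hcc : c ∈ Icc c₀ c₁ := ⟨hc.1, hc.2.trans hc'.2⟩
  have hc1 : T c ⊆ T c₁ := hL.mono _ _ hcc.1 hcc.2 le_rfl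
  have hJ := hJOR V hV
  set R := rst (T c₀) (T c) 𝒲 with hR
  set S : Set (Set ℂ) := {A ∈ R | ξ ≤ diam A} with hS
  have hST : ∀ A ∈ S, A ∈ T c := fun A hA => hA.1.1
  have hSfin : S.Finite := (hL.tame.2 ξ hξ).subset fun A hA => ⟨hc1 (hST A hA), hA.2⟩
  set 𝒬 : Set (Set ℂ) := cluster S '' S with h𝒬
  have hQfin : 𝒬.Finite := hSfin.image _
  have hSR : ∀ A, cluster S A ⊆ cluster R A := fun A => CovrA.cl_sub fun B hB _ => hB.1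
  have hQ : ∀ Q ∈ 𝒬, IsCompact Q ∧ IsPreconnected Q ∧ diam Q ≤ ε / 2 ∧ Q ⊆ TT ξ (T c) ∧
      ∀ x ∈ Q, ∃ A ∈ T c, x ∈ A ∧ A ⊆ Q := by
    rintro _ ⟨A, hA, rfl⟩
    refine ⟨?_, ?_, ?_, ?_, ?_⟩
    · exact Set.Finite.isCompact_sUnion (hSfin.subset fun B hB => Lk.mem hA hB)
        fun B hB => (hL.tame.1 B (hc1 (hST B (Lk.mem hA hB)))).1
    · exact isPreconnected_cluster
        (fun B hB => (hL.tame.1 B (hc1 (hST B hB))).2.1.isConnected.isPreconnected) hA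
        (hL.tame.1 A (hc1 (hST A hA))).2.1.nonempty
    · exact diam_le_of_forall_dist_le (half_pos hε).le fun x hx y hy =>
        (hcl c hc A hA.1).1 x (hSR A hx) y (hSR A hy)
    · rintro x ⟨B, hB, hx⟩
      exact mem_TT.2 ⟨B, hST B (Lk.mem hA hB), (Lk.mem hA hB).2, hx⟩
    · rintro x ⟨B, hB, hx⟩
      exact ⟨B, hST B (Lk.mem hA hB), hx, CovrA.sub_cl hB⟩
  have hQd : ∀ Q ∈ 𝒬, ∀ Q' ∈ 𝒬, Q ≠ Q' → Disjoint Q Q' := by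
    rintro _ ⟨A, hA, rfl⟩ _ ⟨A', hA', rfl⟩ hne
    exact Set.disjoint_left.2 fun x hx hx' => hne (CovrA.cl_meet hA hA' hx hx')
  have hQt : ∀ Q ∈ 𝒬, ∀ W ∈ 𝒲, (Q ∩ closure W).Nonempty → Q ⊆ thickening d (closure W) := by
    rintro _ ⟨A, hA, rfl⟩ W hW ⟨x, ⟨B, hB, hx⟩, hx'⟩
    rw [CovrA.cl_eq hA hB]
    exact (hSR B).trans ((hcl c hc B (Lk.mem hA hB).1).2 W hW ⟨x, hx, hx'⟩)
  have hQV : ∀ Q ∈ 𝒬, Q ⊆ V := fun Q hQ' x hx => by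
    obtain ⟨A, hA, hxA, -⟩ := (hQ Q hQ').2.2.2.2 x hx
    exact hL.sub A (hc1 hA) hxA
  choose F 𝒜 η hη f1 f2 f3 f4 f5 f6 f7 f8 f9 f10 using
    fun W : 𝒲 => hole hATT hRAD hFRB hJOR hV hL hH hε hξ hcc hQfin hQ (hWs W.2)
  have := hWfin.to_subtype
  obtain ⟨m, hm, hmξ, hmη⟩ := exists_min η hη hξ
  set 𝒬₀ : Set (Set ℂ) := {Q ∈ 𝒬 | ∀ W ∈ 𝒲, ¬ (Q ∩ closure W).Nonempty} with h𝒬₀
  have : Finite 𝒬₀ := (hQfin.subset (sep_subset _ _)).to_subtype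
  let F' : 𝒲 ⊕ 𝒬₀ → Set ℂ := Sum.elim F fun _ => ∅
  let 𝒜' : 𝒲 ⊕ 𝒬₀ → Set (Set ℂ) := Sum.elim 𝒜 fun Q => {(Q : Set ℂ)}
  have o1 : ∀ W : 𝒲, ob F' 𝒜' (Sum.inl W) = F W ∪ ⋃₀ 𝒜 W := fun W => rfl
  have o2 : ∀ Q : 𝒬₀, ob F' 𝒜' (Sum.inr Q) = Q := fun Q => by simp [ob, F', 𝒜']
  have d12 : ∀ (W : 𝒲) (Q : 𝒬₀), Disjoint (F W ∪ ⋃₀ 𝒜 W) Q := fun W Q =>
    Set.disjoint_left.2 fun x hx hx' => by
      rcases f6 W x hx with h | ⟨Q', h1, h2, h3⟩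
      · exact Q.2.2 W W.2 ⟨x, hx', h⟩
      · have hne : Q' ≠ Q := fun h => Q.2.2 W W.2 (h ▸ h2)
        exact Set.disjoint_left.1 (hQd Q' h1 Q Q.2.1 hne) h3 hx'
  have hth : ∀ W : 𝒲, F W ∪ ⋃₀ 𝒜 W ⊆ thickening d (closure W) := fun W x hx => by
    rcases f6 W x hx with h | ⟨Q', h1, h2, h3⟩
    · exact self_subset_thickening hd _ h
    · exact hQt Q' h1 W W.2 h2 h3
  have hoV : ∀ i, ob F' 𝒜' i ⊆ V := by
    rintro (W | Q)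
    · intro x hx
      rcases f6 W x hx with h | ⟨Q', h1, -, h3⟩
      · exact (hH.cl W (hWs W.2)).1 h
      · exact hQV Q' h1 h3
    · rw [o2]; exact hQV Q Q.2.1
  have hcarp : ∀ i, Disjoint (carp (T c₀) V) (F' i) := by
    rintro (W | Q)
    · exact Set.disjoint_left.2 fun x hx hx' => hx.2 ⟨W, hWs W.2, f2 W hx'⟩
    · exact disjoint_empty _
  have hout : ∀ y, Out (T c) V m y → ∃ γ : Br, γ 0 = y ∧ γ 1 ∉ V ∧
      ∀ i, Disjoint (range γ) (ob F' 𝒜' i) := by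
    rintro y ⟨w, hw, hj⟩
    obtain ⟨γ, g0, g1, g2⟩ := joinedIn_iff_br.1 hj
    refine ⟨γ, g0, g1 ▸ hw, ?_⟩
    rintro (W | Q)
    · exact f9 W _ (isPreconnected_range γ.continuous) (g2.trans (Free_mono (hmη W) Subset.rfl))
        ⟨w, ⟨1, g1⟩, hw⟩
    · rw [o2]
      exact Set.disjoint_left.2 fun x hx hx' => g2 hx (subset_closure
        (TT_mono hmξ Subset.rfl ((hQ Q Q.2.1).2.2.2.1 hx')))
  refine ⟨m, hm, 𝒲 ⊕ 𝒬₀, inferInstance, F', 𝒜', ⟨?_, ?_, ?_, ?_, ?_⟩, ?_, hcarp, ?_, ?_⟩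
  · rintro (W | Q)
    exacts [f1 W, isCompact_empty]
  · rintro (W | Q)
    exacts [f3 W, finite_singleton _]
  · rintro (W | Q)
    · exact f4 W
    · rintro P (rfl : P = Q)
      exact ⟨(hQ _ Q.2.1).1, (hQ _ Q.2.1).2.2.1.trans (half_le_self hε.le)⟩
  · rintro (W | Q)
    · exact f5 W
    · intro 𝒟 h𝒟
      rcases subset_singleton_iff_eq.1 h𝒟 with rfl | rfl
      · simpa [F'] using isPreconnected_empty
      · simpa [F'] using (hQ _ Q.2.1).2.1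
  · rintro (W | Q) (W' | Q') hne
    · exact (hthick W W.2 W' W'.2 fun h => hne (congrArg _ (Subtype.ext h))).mono (hth W) (hth W')
    · rw [o2]; exact d12 W Q'
    · rw [o2]; exact (d12 W' Q).symm
    · rw [o2, o2]
      exact hQd Q Q.2.1 Q' Q'.2.1 fun h => hne (congrArg _ (Subtype.ext h))
  · intro x hx
    obtain ⟨A, hA, hAd, hxA⟩ := mem_TT.1 hx
    by_cases hAR : A ∈ R
    · have hAS : A ∈ S := ⟨hAR, hAd⟩
      have hxQ : x ∈ cluster S A := CovrA.sub_cl .refl hxA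
      by_cases h0 : cluster S A ∈ 𝒬₀
      · exact mem_iUnion.2 ⟨Sum.inr ⟨_, h0⟩, by rw [o2]; exact hxQ⟩
      · have : ∃ W ∈ 𝒲, (cluster S A ∩ closure W).Nonempty := by
          by_contra hn
          exact h0 ⟨⟨A, hAS, rfl⟩, fun W hW h => hn ⟨W, hW, h⟩⟩
        obtain ⟨W, hW, h⟩ := this
        exact mem_iUnion.2 ⟨Sum.inl ⟨W, hW⟩, f8 ⟨W, hW⟩ _ ⟨A, hAS, rfl⟩ h hxQ⟩
    · have : A ∈ T c₀ ∧ ∃ W ∈ 𝒲, A ⊆ closure W := by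
        by_contra hn
        exact hAR ⟨hA, hn⟩
      obtain ⟨h0, W, hW, h⟩ := this
      exact mem_iUnion.2 ⟨Sum.inl ⟨W, hW⟩, f7 ⟨W, hW⟩ A h0 h hAd hxA⟩
  · intro y hy i hf
    obtain ⟨γ, g0, g1, g2⟩ := hout y hy
    exact g1 (hJ.2.2.2.2.2.2.2.1 _ (hoV i)
      (fill_conn (isPreconnected_range γ.continuous) (g2 i) ⟨0, g0⟩ ⟨1, rfl⟩ hf))
  · intro y hyV hy
    obtain ⟨γ, g0, g1, g2⟩ := hout y hy
    by_cases hyc : y ∈ carp (T c₀) V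
    · refine ⟨ContinuousMap.const _ y, rfl, hyc, ?_, fun i => ?_⟩
      · rintro _ ⟨t, rfl⟩
        exact mem_ball_self hε
      · refine (hcarp i).mono_left ?_
        rintro _ ⟨t, rfl⟩
        exact hyc
    · obtain ⟨W, hW, hyW⟩ : y ∈ ⋃₀ cleIn2 (T c₀) V := by
        by_contra hn
        exact hyc ⟨subset_closure hyV, hn⟩
      by_cases hW𝒲 : W ∈ 𝒲
      · have hyF : y ∉ F ⟨W, hW𝒲⟩ := fun h =>
          Set.disjoint_left.1 (g2 (Sum.inl ⟨W, hW𝒲⟩)) ⟨0, g0⟩ (Or.inl h)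
        obtain ⟨γ', a0, a1, a2, a3⟩ := f10 ⟨W, hW𝒲⟩ y ⟨hyW, hyF⟩
        refine ⟨γ', a0, hH.front W hW a1, a2.trans inter_subset_right, ?_⟩
        rintro (W' | Q)
        · by_cases h : W = W'
          · have e : W' = ⟨W, hW𝒲⟩ := Subtype.ext h.symm
            rw [e]
            exact a3
          · exact (hH.disj W hW W' (hWs W'.2) h).mono (a2.trans inter_subset_left)
              ((f2 W').trans subset_closure)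
        · exact disjoint_empty _
      · have hJW := hJOR W (hH.jor W hW)
        obtain ⟨γ', a0, a1, a2⟩ := exit hJW.1 γ (g0 ▸ hyW)
          fun h => g1 ((hH.cl W hW).1 (subset_closure h))
        refine ⟨γ', a0.trans g0, hH.front W hW a1, fun x hx => ?_, fun i => ?_⟩
        · have h1 := dist_le_diam_of_mem hJW.2.2.2.1.isBounded (a2 hx).1 (subset_closure hyW)
          rw [diam_closure] at h1
          have h2 := hsmall W hW hW𝒲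
          rw [mem_ball]
          linarith
        · exact (g2 i).mono (a2.trans inter_subset_right) subset_union_left

end Pool.Agent.P.MP_d66c6d_pr
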