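import Pool.Agent.P.MP_d66c6d_pr.H.Iface

/-! Step RAD of the carpet project. -/

namespace Pool.Agent.P.MP_d66c6d_pr

open MeasureTheory ProbabilityTheory Set Metric Filter Topology
open scoped ENNReal

theorem p_RAD :
    S_RAD := by
  rintro _ Z ε ⟨φ, rfl⟩ hε hZ hZW
  obtain ⟨δ, hδ, hu⟩ := Metric.uniformContinuousOn_iff.1
    ((isCompact_closedBall (0 : ℂ) 1).uniformContinuousOn_of_continuous
      φ.continuous.continuousOn) ε hε
  obtain ⟨r', hr', hZ'⟩ := exists_lt_subset_ball (x := (0 : ℂ)) (r := 1)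
    (hZ.image φ.symm).isClosed (by
      rintro _ ⟨z, hz, rfl⟩
      obtain ⟨u, hu, rfl⟩ := hZW hz
      rwa [φ.symm_apply_apply])
  obtain ⟨r, h1, h2, h3, h4⟩ : ∃ r : ℝ, r < 1 ∧ r' ≤ r ∧ 1 - δ ≤ r ∧ 0 ≤ r :=
    ⟨max (max r' (1 - δ)) 0, max_lt (max_lt hr' (by linarith)) one_pos,
      (le_max_left _ _).trans (le_max_left _ _), (le_max_right _ _).trans (le_max_left _ _),
      le_max_right _ _⟩
  refine ⟨φ '' closedBall 0 r, (isCompact_closedBall _ _).image φ.continuous,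
    (convex_closedBall _ _).isPreconnected.image _ φ.continuous.continuousOn, fun z hz => ?_,
    image_mono (closedBall_subset_ball h1), ?_⟩
  · exact ⟨φ.symm z, ball_subset_closedBall (ball_subset_ball h2 (hZ' ⟨z, hz, rfl⟩)),
      φ.apply_symm_apply z⟩
  rintro _ ⟨⟨u, hu1, rfl⟩, hu2⟩
  rw [mem_ball_zero_iff] at hu1
  have hr : r < ‖u‖ := by
    by_contra h
    exact hu2 ⟨u, mem_closedBall_zero_iff.2 (not_lt.1 h), rfl⟩
  have h0 : 0 < ‖u‖ := h4.trans_lt hr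
  have hi : 0 ≤ ‖u‖⁻¹ - 1 := sub_nonneg.2 ((one_le_inv₀ h0).2 hu1.le)
  have n1 : ∀ t : unitInterval, ‖(1 + (t : ℝ) * (‖u‖⁻¹ - 1)) • u‖ = ‖u‖ + t * (1 - ‖u‖) :=
    fun t => by
      rw [norm_smul, Real.norm_of_nonneg (add_nonneg zero_le_one (mul_nonneg t.2.1 hi))]
      field_simp
  have n2 : ∀ t : unitInterval, dist ((1 + (t : ℝ) * (‖u‖⁻¹ - 1)) • u) u = t * (1 - ‖u‖) :=
    fun t => by
      rw [dist_eq_norm, add_smul, one_smul, add_sub_cancel_left, norm_smul,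
        Real.norm_of_nonneg (mul_nonneg t.2.1 hi)]
      field_simp
  have b1 : ∀ t : unitInterval, 0 ≤ (t : ℝ) * (1 - ‖u‖) ∧ (t : ℝ) * (1 - ‖u‖) ≤ 1 - ‖u‖ := fun t =>
    ⟨mul_nonneg t.2.1 (by linarith), mul_le_of_le_one_left (by linarith) t.2.2⟩
  have m1 : ∀ t : unitInterval, (1 + (t : ℝ) * (‖u‖⁻¹ - 1)) • u ∈ closedBall (0 : ℂ) 1 := fun t =>
    mem_closedBall_zero_iff.2 (by rw [n1]; linarith [(b1 t).2])
  refine ⟨⟨fun t => φ ((1 + (t : ℝ) * (‖u‖⁻¹ - 1)) • u), by fun_prop⟩, by simp, ?_, ?_, ?_⟩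
  · rw [← φ.image_frontier, frontier_ball _ one_ne_zero]
    exact ⟨_, mem_sphere_zero_iff_norm.2 ((n1 1).trans (by simp)), rfl⟩
  · rintro _ ⟨t, rfl⟩
    refine ⟨?_, hu _ (m1 t) u (mem_closedBall_zero_iff.2 hu1.le) ?_⟩
    · rw [← φ.image_closure, closure_ball _ one_ne_zero]
      exact ⟨_, m1 t, rfl⟩
    · rw [n2]; linarith [(b1 t).2]
  · rw [Set.disjoint_left]
    rintro _ ⟨t, rfl⟩ ⟨w, hw, e⟩
    rw [φ.injective e, mem_closedBall_zero_iff, n1] at hw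
    linarith [(b1 t).1]

end Pool.Agent.P.MP_d66c6d_pr
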